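import Pool.Agent.N253.EC.Ent

/-!
# Products along orbits which stay relatively close to a given orbit
-/

set_option autoImplicit false

open Set Filter Metric Topology

namespace Pool.Agent.N772.ST

open Pool.Agent.TH279.MD Pool.Agent.Y298.CA Pool.Agent.N253.LC Pool.Agent.N253.EC

theorem prod_close {S : Finset ℕ} {q a : ℕ → ℂ} {θ : ℕ → ℝ} (h0 : ∀ i ∈ S, 0 ≤ θ i)
    (h : ∀ i ∈ S, ‖q i - a i‖ ≤ θ i * ‖a i‖) :
    ‖∏ i ∈ S, q i - ∏ i ∈ S, a i‖ ≤ (∏ i ∈ S, (1 + θ i) - 1) * ∏ i ∈ S, ‖a i‖ := by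
  induction S using Finset.induction_on with
  | empty => simp
  | insert j S hj ih =>
    rw [Finset.prod_insert hj, Finset.prod_insert hj, Finset.prod_insert hj, Finset.prod_insert hj]
    have h1 := ih (fun i hi => h0 i (Finset.mem_insert_of_mem hi))
      (fun i hi => h i (Finset.mem_insert_of_mem hi))
    have h2 := h j (Finset.mem_insert_self j S)
    have h3 := h0 j (Finset.mem_insert_self j S)
    obtain ⟨X, hX⟩ : ∃ X, X = ∏ i ∈ S, (1 + θ i) := ⟨_, rfl⟩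
    obtain ⟨Y, hY⟩ : ∃ Y, Y = ∏ i ∈ S, ‖a i‖ := ⟨_, rfl⟩
    rw [← hX, ← hY] at h1 ⊢
    have hX1 : 1 ≤ X := by
      rw [hX]
      calc (1 : ℝ) = ∏ i ∈ S, (1 : ℝ) := by simp
        _ ≤ ∏ i ∈ S, (1 + θ i) := Finset.prod_le_prod (fun _ _ => zero_le_one) fun i hi => by
            have := h0 i (Finset.mem_insert_of_mem hi)
            linarith
    have hY0 : 0 ≤ Y := by rw [hY]; positivity
    have hq : ‖q j‖ ≤ (1 + θ j) * ‖a j‖ := by
      have := norm_le_norm_add_norm_sub' (q j) (a j)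
      linarith
    have e : q j * ∏ i ∈ S, q i - a j * ∏ i ∈ S, a i =
        q j * (∏ i ∈ S, q i - ∏ i ∈ S, a i) + (q j - a j) * ∏ i ∈ S, a i := by ring
    rw [e]
    refine (norm_add_le _ _).trans ?_
    rw [norm_mul, norm_mul, norm_prod, ← hY]
    have h4 : 0 ≤ (X - 1) * Y := mul_nonneg (by linarith) hY0
    calc ‖q j‖ * ‖∏ i ∈ S, q i - ∏ i ∈ S, a i‖ + ‖q j - a j‖ * Y ≤
          ((1 + θ j) * ‖a j‖) * ((X - 1) * Y) + (θ j * ‖a j‖) * Y := by gcongr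
      _ = ((1 + θ j) * X - 1) * (‖a j‖ * Y) := by ring

theorem prod_close' {S : Finset ℕ} {q a : ℕ → ℂ} {θ : ℕ → ℝ} (h0 : ∀ i ∈ S, 0 ≤ θ i)
    (h : ∀ i ∈ S, ‖q i - a i‖ ≤ θ i * ‖a i‖) {Θ : ℝ} (hs : ∑ i ∈ S, θ i ≤ Θ) (hΘ : Θ ≤ 1) :
    ‖∏ i ∈ S, q i - ∏ i ∈ S, a i‖ ≤ 2 * Θ * ‖∏ i ∈ S, a i‖ := by
  refine (prod_close h0 h).trans ?_
  rw [norm_prod]
  refine mul_le_mul_of_nonneg_right ?_ (by positivity)
  have hΘ0 : 0 ≤ Θ := (Finset.sum_nonneg h0).trans hs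
  have h1 : ∏ i ∈ S, (1 + θ i) ≤ Real.exp Θ := by
    calc ∏ i ∈ S, (1 + θ i) ≤ ∏ i ∈ S, Real.exp (θ i) := by
          refine Finset.prod_le_prod (fun i hi => ?_) fun i _ => ?_
          · have := h0 i hi
            linarith
          · have := Real.add_one_le_exp (θ i)
            linarith
      _ = Real.exp (∑ i ∈ S, θ i) := (Real.exp_sum _ _).symm
      _ ≤ Real.exp Θ := Real.exp_le_exp.2 hs
  have h2 : Real.exp Θ ≤ 1 + 2 * Θ := by
    have := Real.abs_exp_sub_one_sub_id_le (x := Θ) (by rw [abs_of_nonneg hΘ0]; exact hΘ)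
    have h3 := le_abs_self (Real.exp Θ - 1 - Θ)
    nlinarith
  linarith

theorem pow_close {z y : ℂ} {ξ : ℝ} (hξ : 0 ≤ ξ) (h : ‖z - y‖ ≤ ξ * ‖y‖) (j : ℕ) :
    ‖z ^ j - y ^ j‖ ≤ ((1 + ξ) ^ j - 1) * ‖y‖ ^ j := by
  induction j with
  | zero => simp
  | succ j ih =>
    have hz : ‖z‖ ≤ (1 + ξ) * ‖y‖ := by
      have := norm_le_norm_add_norm_sub' z y
      linarith
    have e : z ^ (j + 1) - y ^ (j + 1) = z * (z ^ j - y ^ j) + (z - y) * y ^ j := by ring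
    rw [e]
    refine (norm_add_le _ _).trans ?_
    rw [norm_mul, norm_mul, norm_pow]
    have h1 : 1 ≤ (1 + ξ) ^ j := one_le_pow₀ (by linarith)
    calc ‖z‖ * ‖z ^ j - y ^ j‖ + ‖z - y‖ * ‖y‖ ^ j ≤
          ((1 + ξ) * ‖y‖) * (((1 + ξ) ^ j - 1) * ‖y‖ ^ j) + (ξ * ‖y‖) * ‖y‖ ^ j := by gcongr
      _ = ((1 + ξ) ^ (j + 1) - 1) * ‖y‖ ^ (j + 1) := by ring

theorem norm_pow_close {z y : ℂ} {ξ : ℝ} (_hξ : 0 ≤ ξ) (h : ‖z - y‖ ≤ ξ * ‖y‖) (j : ℕ) :
    ‖z ^ j‖ ≤ (1 + ξ) ^ j * ‖y‖ ^ j := by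
  have hz : ‖z‖ ≤ (1 + ξ) * ‖y‖ := by
    have := norm_le_norm_add_norm_sub' z y
    linarith
  rw [norm_pow, ← mul_pow]
  gcongr

/-- the difference quotient of `z ^ d` -/
noncomputable def qq (d : ℕ) (z z' : ℂ) : ℂ := ∑ i ∈ Finset.range d, z ^ i * z' ^ (d - 1 - i)

theorem qq_eq (d : ℕ) (z z' : ℂ) : qq d z z' * (z - z') = z ^ d - z' ^ d :=
  (Commute.all z z').geom_sum₂_mul d

theorem qq_close {d : ℕ} (hd : 2 ≤ d) {z z' y : ℂ} {ξ : ℝ} (hξ : 0 ≤ ξ) (h : ‖z - y‖ ≤ ξ * ‖y‖)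
    (h' : ‖z' - y‖ ≤ ξ * ‖y‖) (h1 : (d : ℝ) * ξ ≤ 1) :
    ‖qq d z z' - d * y ^ (d - 1)‖ ≤ 2 * d * ξ * ‖(d : ℂ) * y ^ (d - 1)‖ := by
  have hpow : (1 + ξ) ^ (d - 1) - 1 ≤ 2 * d * ξ := by
    have e1 : (1 + ξ) ^ (d - 1) ≤ (1 + ξ) ^ d := pow_le_pow_right₀ (by linarith) (by omega)
    have e2 : (1 + ξ) ^ d ≤ Real.exp (d * ξ) := by
      rw [Real.exp_nat_mul]
      gcongr
      have := Real.add_one_le_exp ξ
      linarith
    have h0 : 0 ≤ (d : ℝ) * ξ := by positivity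
    have e3 := Real.abs_exp_sub_one_sub_id_le (x := d * ξ) (by rw [abs_of_nonneg h0]; exact h1)
    have e4 := le_abs_self (Real.exp (d * ξ) - 1 - d * ξ)
    nlinarith
  have e : qq d z z' - d * y ^ (d - 1) =
      ∑ i ∈ Finset.range d, (z ^ i * z' ^ (d - 1 - i) - y ^ (d - 1)) := by
    unfold qq
    rw [Finset.sum_sub_distrib, Finset.sum_const, Finset.card_range, nsmul_eq_mul]
  rw [e]
  refine (norm_sum_le _ _).trans ?_
  calc ∑ i ∈ Finset.range d, ‖z ^ i * z' ^ (d - 1 - i) - y ^ (d - 1)‖ ≤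
        ∑ i ∈ Finset.range d, (2 * d * ξ * ‖y‖ ^ (d - 1)) := by
        refine Finset.sum_le_sum fun i hi => ?_
        rw [Finset.mem_range] at hi
        obtain ⟨k, hk⟩ : ∃ k, d - 1 - i = k := ⟨_, rfl⟩
        have hd1 : d - 1 = i + k := by omega
        rw [hk, hd1, pow_add]
        have e : z ^ i * z' ^ k - y ^ i * y ^ k = z ^ i * (z' ^ k - y ^ k) + (z ^ i - y ^ i) * y ^ k := by
          ring
        rw [e]
        refine (norm_add_le _ _).trans ?_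
        rw [norm_mul, norm_mul, norm_pow y]
        have a1 := norm_pow_close hξ h i
        have a2 := pow_close hξ h' k
        have a3 := pow_close hξ h i
        have a4 : 1 ≤ (1 + ξ) ^ k := one_le_pow₀ (by linarith)
        calc ‖z ^ i‖ * ‖z' ^ k - y ^ k‖ + ‖z ^ i - y ^ i‖ * ‖y‖ ^ k ≤
              ((1 + ξ) ^ i * ‖y‖ ^ i) * (((1 + ξ) ^ k - 1) * ‖y‖ ^ k) +
                (((1 + ξ) ^ i - 1) * ‖y‖ ^ i) * ‖y‖ ^ k := by gcongr
          _ = ((1 + ξ) ^ (d - 1) - 1) * ‖y‖ ^ (i + k) := by rw [hd1]; ring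
          _ ≤ 2 * d * ξ * ‖y‖ ^ (i + k) := by gcongr
    _ = 2 * d * ξ * ‖(d : ℂ) * y ^ (d - 1)‖ := by
        rw [Finset.sum_const, Finset.card_range, nsmul_eq_mul, norm_mul, Complex.norm_natCast,
          norm_pow]
        ring

/-- the orbit of `κ + u` under `z ^ d + κ` -/
noncomputable def zo (d : ℕ) (κ u : ℂ) (i : ℕ) : ℂ := (f d κ)^[i] (κ + u)

theorem zo_zero (d : ℕ) (κ u : ℂ) : zo d κ u 0 = κ + u := rfl

theorem zo_succ (d : ℕ) (κ u : ℂ) (i : ℕ) : zo d κ u (i + 1) = zo d κ u i ^ d + κ := by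
  unfold zo
  rw [Function.iterate_succ_apply']
  rfl

/-- the products of the derivatives -/
noncomputable def Wp (d : ℕ) (b : ℂ) (N i : ℕ) : ℂ :=
  ∏ l ∈ Finset.Ico i N, ((d : ℂ) * zo d b 0 l ^ (d - 1))

/-- telescoping -/
theorem tele (d : ℕ) (κ κ' u u' : ℂ) (N : ℕ) : zo d κ u N - zo d κ' u' N =
    (κ - κ') * ∑ j ∈ Finset.range (N + 1), ∏ l ∈ Finset.Ico j N, qq d (zo d κ u l) (zo d κ' u' l) +
    (u - u') * ∏ l ∈ Finset.Ico 0 N, qq d (zo d κ u l) (zo d κ' u' l) := by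
  induction N with
  | zero =>
    rw [zo_zero, zo_zero]
    simp
    ring
  | succ N ih =>
    rw [zo_succ, zo_succ, Finset.sum_range_succ, Finset.prod_Ico_succ_top (Nat.zero_le N),
      Finset.Ico_self, Finset.prod_empty]
    have h1 : ∑ j ∈ Finset.range (N + 1), ∏ l ∈ Finset.Ico j (N + 1),
        qq d (zo d κ u l) (zo d κ' u' l) = (∑ j ∈ Finset.range (N + 1), ∏ l ∈ Finset.Ico j N,
        qq d (zo d κ u l) (zo d κ' u' l)) * qq d (zo d κ u N) (zo d κ' u' N) := by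
      rw [Finset.sum_mul]
      refine Finset.sum_congr rfl fun j hj => ?_
      rw [Finset.mem_range] at hj
      rw [Finset.prod_Ico_succ_top (by omega)]
    rw [h1]
    have h2 := qq_eq d (zo d κ u N) (zo d κ' u' N)
    have h3 : zo d κ u N ^ d + κ - (zo d κ' u' N ^ d + κ') =
        (zo d κ u N ^ d - zo d κ' u' N ^ d) + (κ - κ') := by ring
    rw [h3, ← h2, ih]
    ring

/-- **The two point estimate.** -/
theorem two_point {d N : ℕ} (hd : 2 ≤ d) {b κ κ' u u' : ℂ} {ξ : ℕ → ℝ} (hξ0 : ∀ i < N, 0 ≤ ξ i)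
    (hξ : ∀ i < N, ‖zo d κ u i - zo d b 0 i‖ ≤ ξ i * ‖zo d b 0 i‖)
    (hξ' : ∀ i < N, ‖zo d κ' u' i - zo d b 0 i‖ ≤ ξ i * ‖zo d b 0 i‖) {Θ : ℝ}
    (hs : 2 * d * ∑ i ∈ Finset.range N, ξ i ≤ Θ) (hΘ : Θ ≤ 1) :
    ‖zo d κ u N - zo d κ' u' N - (∑ j ∈ Finset.range (N + 1), Wp d b N j) * (κ - κ') -
      Wp d b N 0 * (u - u')‖ ≤
      2 * Θ * ((∑ j ∈ Finset.range (N + 1), ‖Wp d b N j‖) * ‖κ - κ'‖ + ‖Wp d b N 0‖ * ‖u - u'‖) := by
  have hdR : (2 : ℝ) ≤ d := by exact_mod_cast hd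
  have hξ1 : ∀ i < N, (d : ℝ) * ξ i ≤ 1 := by
    intro i hi
    have h1 : ξ i ≤ ∑ i ∈ Finset.range N, ξ i :=
      Finset.single_le_sum (f := ξ) (fun j hj => hξ0 j (Finset.mem_range.1 hj)) (Finset.mem_range.2 hi)
    have h2 := hξ0 i hi
    nlinarith
  have hq : ∀ j ≤ N, ‖∏ l ∈ Finset.Ico j N, qq d (zo d κ u l) (zo d κ' u' l) - Wp d b N j‖ ≤
      2 * Θ * ‖Wp d b N j‖ := by
    intro j hj
    unfold Wp
    refine prod_close' (θ := fun i => 2 * d * ξ i) (fun i hi => ?_) (fun i hi => ?_) ?_ hΘ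
    · rw [Finset.mem_Ico] at hi
      have := hξ0 i hi.2
      positivity
    · rw [Finset.mem_Ico] at hi
      exact qq_close hd (hξ0 i hi.2) (hξ i hi.2) (hξ' i hi.2) (hξ1 i hi.2)
    · rw [← Finset.mul_sum]
      refine le_trans ?_ hs
      refine mul_le_mul_of_nonneg_left (Finset.sum_le_sum_of_subset_of_nonneg ?_ ?_) (by positivity)
      · intro i hi
        rw [Finset.mem_Ico] at hi
        exact Finset.mem_range.2 hi.2
      · intro i hi _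
        exact hξ0 i (Finset.mem_range.1 hi)
  rw [tele]
  have e : (κ - κ') * ∑ j ∈ Finset.range (N + 1), ∏ l ∈ Finset.Ico j N,
      qq d (zo d κ u l) (zo d κ' u' l) +
      (u - u') * ∏ l ∈ Finset.Ico 0 N, qq d (zo d κ u l) (zo d κ' u' l) -
      (∑ j ∈ Finset.range (N + 1), Wp d b N j) * (κ - κ') - Wp d b N 0 * (u - u') =
      (κ - κ') * ∑ j ∈ Finset.range (N + 1), (∏ l ∈ Finset.Ico j N,
        qq d (zo d κ u l) (zo d κ' u' l) - Wp d b N j) +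
      (u - u') * (∏ l ∈ Finset.Ico 0 N, qq d (zo d κ u l) (zo d κ' u' l) - Wp d b N 0) := by
    rw [Finset.sum_sub_distrib]
    ring
  rw [e]
  refine (norm_add_le _ _).trans ?_
  rw [norm_mul, norm_mul]
  have h1 : ‖∑ j ∈ Finset.range (N + 1), (∏ l ∈ Finset.Ico j N,
      qq d (zo d κ u l) (zo d κ' u' l) - Wp d b N j)‖ ≤
      2 * Θ * ∑ j ∈ Finset.range (N + 1), ‖Wp d b N j‖ := by
    refine (norm_sum_le _ _).trans ?_
    rw [Finset.mul_sum]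
    exact Finset.sum_le_sum fun j hj => hq j (by rw [Finset.mem_range] at hj; omega)
  have h2 := hq 0 (Nat.zero_le N)
  calc _ ≤ ‖κ - κ'‖ * (2 * Θ * ∑ j ∈ Finset.range (N + 1), ‖Wp d b N j‖) +
        ‖u - u'‖ * (2 * Θ * ‖Wp d b N 0‖) := by gcongr
    _ = _ := by ring

theorem deriv_it (d : ℕ) (c x : ℂ) (n : ℕ) :
    deriv ((f d c)^[n]) x = ∏ l ∈ Finset.range n, ((d : ℂ) * ((f d c)^[l] x) ^ (d - 1)) := by
  induction n with
  | zero =>
    rw [Function.iterate_zero, deriv_id]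
    simp
  | succ n ih =>
    rw [Finset.prod_range_succ, ← ih, show n + 1 = 1 + n by ring, ENTaux.chain, Function.iterate_one,
      ENTaux.deriv_f]
    ring

theorem Wp_deriv (d : ℕ) (b : ℂ) (N i : ℕ) :
    Wp d b N i = deriv ((f d b)^[N - i]) ((f d b)^[i] b) := by
  rw [deriv_it]
  unfold Wp
  rw [Finset.prod_Ico_eq_prod_range]
  refine Finset.prod_congr rfl fun l _ => ?_
  unfold zo
  rw [add_zero, ← Function.iterate_add_apply, add_comm l i]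

theorem sum_deriv (d : ℕ) (b : ℂ) (N : ℕ) :
    deriv (fun t : ℂ => (f d t)^[N] t) b = ∑ j ∈ Finset.range (N + 1), Wp d b N j := by
  induction N with
  | zero =>
    have : (fun t : ℂ => (f d t)^[0] t) = id := rfl
    rw [this, deriv_id]
    simp [Wp]
  | succ N ih =>
    have h1 : (fun t : ℂ => (f d t)^[N + 1] t) = fun t => ((f d t)^[N] t) ^ d + t := by
      funext t
      rw [Function.iterate_succ_apply']
      rfl
    have h2 : HasDerivAt (fun t : ℂ => (f d t)^[N] t) (∑ j ∈ Finset.range (N + 1), Wp d b N j) b := by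
      rw [← ih]
      exact (ENTaux.diff_xi d N).differentiableAt.hasDerivAt
    rw [h1, ((h2.fun_pow d).fun_add (hasDerivAt_id' b)).deriv, Finset.sum_range_succ _ (N + 1)]
    have h3 : ∀ j ∈ Finset.range (N + 1), Wp d b (N + 1) j =
        Wp d b N j * ((d : ℂ) * zo d b 0 N ^ (d - 1)) := by
      intro j hj
      rw [Finset.mem_range] at hj
      unfold Wp
      rw [Finset.prod_Ico_succ_top (by omega)]
    rw [Finset.sum_congr rfl h3, ← Finset.sum_mul]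
    have h4 : Wp d b (N + 1) (N + 1) = 1 := by
      unfold Wp
      rw [Finset.Ico_self, Finset.prod_empty]
    rw [h4]
    unfold zo
    rw [add_zero]
    ring

end Pool.Agent.N772.ST
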