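import Pool.Agent.N772.ST.Fam
import Pool.Agent.N253.EC.Chn
import Pool.Agent.N253.EC.Comp

/-!
# The chain argument, with a thin annulus

Adapted from `Pool.Agent.N253.EC.Chn` (helper491).
-/

set_option autoImplicit false

open Set Filter Metric Topology

namespace Pool.Agent.N772.ST

/-- A continuous function which is less than `s` at `p` and more than `v > s` at `q` runs from `s` to
`v` on a subinterval on which it stays between `s` and `v`. -/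
theorem crossing {g : ℝ → ℝ} {p q s v : ℝ} (hsv : s < v) (hpq : p ≤ q)
    (hg : ContinuousOn g (Icc p q)) (hp : g p < s) (hq : v < g q) :
    ∃ a b : ℝ, p ≤ a ∧ a ≤ b ∧ b ≤ q ∧ g a = s ∧ g b = v ∧
      ∀ t ∈ Icc a b, s ≤ g t ∧ g t ≤ v := by
  have hc2 : IsCompact (Icc p q ∩ g ⁻¹' {v}) :=
    isCompact_Icc.of_isClosed_subset (hg.preimage_isClosed_of_isClosed isClosed_Icc isClosed_singleton)
      inter_subset_left
  have hne2 : (Icc p q ∩ g ⁻¹' {v}).Nonempty := by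
    obtain ⟨t, ht, h⟩ := intermediate_value_Icc hpq hg (⟨by linarith, hq.le⟩ : v ∈ Icc (g p) (g q))
    exact ⟨t, ht, h⟩
  obtain ⟨b, hb⟩ := hc2.exists_isLeast hne2
  have hbI : b ∈ Icc p q := hb.1.1
  have hgb : g b = v := hb.1.2
  have hle : ∀ t ∈ Icc p b, g t ≤ v := by
    intro t ht
    by_contra hlt
    push Not at hlt
    obtain ⟨u, hu, h⟩ := intermediate_value_Icc ht.1
      (hg.mono (Icc_subset_Icc le_rfl (ht.2.trans hbI.2)))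
      (⟨by linarith, hlt.le⟩ : v ∈ Icc (g p) (g t))
    have h1 : b ≤ u := hb.2 ⟨⟨hu.1, hu.2.trans (ht.2.trans hbI.2)⟩, h⟩
    have h2 : t = b := le_antisymm ht.2 (h1.trans hu.2)
    rw [h2, hgb] at hlt
    exact lt_irrefl _ hlt
  have hgpb : ContinuousOn g (Icc p b) := hg.mono (Icc_subset_Icc le_rfl hbI.2)
  have hc1 : IsCompact (Icc p b ∩ g ⁻¹' {s}) :=
    isCompact_Icc.of_isClosed_subset (hgpb.preimage_isClosed_of_isClosed isClosed_Icc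
      isClosed_singleton) inter_subset_left
  have hne1 : (Icc p b ∩ g ⁻¹' {s}).Nonempty := by
    obtain ⟨t, ht, h⟩ := intermediate_value_Icc hbI.1 hgpb
      (⟨hp.le, by rw [hgb]; linarith⟩ : s ∈ Icc (g p) (g b))
    exact ⟨t, ht, h⟩
  obtain ⟨a, ha⟩ := hc1.exists_isGreatest hne1
  have haI : a ∈ Icc p b := ha.1.1
  have hga : g a = s := ha.1.2
  refine ⟨a, b, haI.1, haI.2, hbI.2, hga, hgb, fun t ht => ⟨?_, hle t ⟨haI.1.trans ht.1, ht.2⟩⟩⟩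
  by_contra hlt
  push Not at hlt
  obtain ⟨u, hu, h⟩ := intermediate_value_Icc ht.2
    (hgpb.mono (Icc_subset_Icc (haI.1.trans ht.1) le_rfl))
    (⟨hlt.le, by rw [hgb]; linarith⟩ : s ∈ Icc (g t) (g b))
  have h1 : u ≤ a := ha.2 ⟨⟨haI.1.trans (ht.1.trans hu.1), hu.2⟩, h⟩
  have h2 : t = a := le_antisymm (hu.1.trans h1) ht.1
  rw [h2, hga] at hlt
  exact lt_irrefl _ hlt

/-- The same with the endpoints in either order. -/
theorem crossing' {g : ℝ → ℝ} {a b s v t₀ t₁ : ℝ} (hsv : s < v) (h0 : t₀ ∈ Icc a b)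
    (h1 : t₁ ∈ Icc a b) (hg : ContinuousOn g (Icc a b)) (hp : g t₀ < s) (hq : v < g t₁) :
    ∃ a' b' : ℝ, a ≤ a' ∧ a' ≤ b' ∧ b' ≤ b ∧ |g b' - g a'| = v - s ∧
      ∀ t ∈ Icc a' b', s ≤ g t ∧ g t ≤ v := by
  rcases le_total t₀ t₁ with h | h
  · obtain ⟨a', b', h2, h3, h4, h5, h6, h7⟩ :=
      crossing hsv h (hg.mono (Icc_subset_Icc h0.1 h1.2)) hp hq
    refine ⟨a', b', h0.1.trans h2, h3, h4.trans h1.2, ?_, h7⟩
    rw [h5, h6, abs_of_pos (by linarith)]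
  · have hgc : ContinuousOn (fun t => g (-t)) (Icc (-t₀) (-t₁)) := by
      refine hg.comp continuous_neg.continuousOn ?_
      intro t ht
      exact ⟨by linarith [ht.2, h1.1], by linarith [ht.1, h0.2]⟩
    obtain ⟨a', b', h2, h3, h4, h5, h6, h7⟩ :=
      crossing (g := fun t => g (-t)) hsv (neg_le_neg h) hgc
        (by simpa using hp) (by simpa using hq)
    refine ⟨-b', -a', by linarith [h1.1], neg_le_neg h3, by linarith [h0.2], ?_, ?_⟩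
    · rw [h5, h6, abs_sub_comm, abs_of_pos (by linarith)]
    · intro t ht
      have := h7 (-t) ⟨by linarith [ht.2], by linarith [ht.1]⟩
      simpa using this

theorem chain_aux {s v η : ℝ} {z : ℕ → ℝ → ℂ} (hsv : s < v) (hη : 2 * η < v - s)
    (hz : ∀ i, ContinuousOn (z i) (Icc 0 1))
    (H : ∀ (a b t₀ : ℝ) (j : ℕ), 0 ≤ a → b ≤ 1 → t₀ ∈ Icc a b → (∀ i < j, s ≤ ‖z i t₀‖) →
      ‖z j t₀‖ < s → (∀ t ∈ Icc a b, ‖z j t‖ ≤ v) →
      ∀ i < j, ‖z i t₀‖ ≤ v → ∀ t ∈ Icc a b, ‖z i t - z i t₀‖ ≤ η)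
    {J : ℕ} (hJ : ∀ t ∈ Icc (0 : ℝ) 1, ∃ j ≤ J, ‖z j t‖ < s) (k : ℕ) :
    ∀ m : ℕ, J + 1 ≤ m + k → ∀ a b : ℝ, 0 ≤ a → a ≤ b → b ≤ 1 →
      (∀ i < m, ∀ t ∈ Icc a b, s ≤ ‖z i t‖) →
      ∃ t₀ ∈ Icc a b, ∃ j ≥ m, (∀ i < j, s ≤ ‖z i t₀‖) ∧ ‖z j t₀‖ < s ∧
        ∀ t ∈ Icc a b, ‖z j t‖ ≤ v := by
  induction k with
  | zero =>
    intro m hm a b ha hab hb hi
    obtain ⟨j, hj, h⟩ := hJ a ⟨ha, hab.trans hb⟩
    exact absurd (hi j (by omega) a ⟨le_rfl, hab⟩) (not_le.mpr h)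
  | succ k ih =>
    intro m hm a b ha hab hb hi
    have ihm := ih (m + 1) (by omega)
    by_cases hA : ∀ t ∈ Icc a b, s ≤ ‖z m t‖
    · obtain ⟨t₀, ht₀, j, hj, h⟩ := ihm a b ha hab hb (by
        intro i him t ht
        rcases Nat.lt_succ_iff_lt_or_eq.mp him with h | h
        · exact hi i h t ht
        · rw [h]; exact hA t ht)
      exact ⟨t₀, ht₀, j, by omega, h⟩
    · push Not at hA
      obtain ⟨t₀, ht₀, hlt⟩ := hA
      refine ⟨t₀, ht₀, m, le_rfl, fun i him => hi i him t₀ ht₀, hlt, ?_⟩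
      by_contra hcon
      push Not at hcon
      obtain ⟨t₁, ht₁, hgt⟩ := hcon
      obtain ⟨a', b', h2, h3, h4, h5, h6⟩ := crossing' (g := fun t => ‖z m t‖) hsv ht₀ ht₁
        (((hz m).mono (Icc_subset_Icc ha hb)).norm) hlt hgt
      have hsub : Icc a' b' ⊆ Icc a b := Icc_subset_Icc h2 h4
      obtain ⟨ts, hts, j, hj, hj1, hj2, hj3⟩ := ihm a' b' (ha.trans h2) h3 (h4.trans hb) (by
        intro i him t ht
        rcases Nat.lt_succ_iff_lt_or_eq.mp him with h | h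
        · exact hi i h t (hsub ht)
        · rw [h]; exact (h6 t ht).1)
      have h7 := (H a' b' ts j (ha.trans h2) (h4.trans hb) hts hj1 hj2 hj3) m (by omega)
        (h6 ts hts).2
      have h8 := h7 a' ⟨le_rfl, h3⟩
      have h9 := h7 b' ⟨h3, le_rfl⟩
      have h10 : |‖z m b'‖ - ‖z m a'‖| ≤ η + η := by
        calc |‖z m b'‖ - ‖z m a'‖| ≤ ‖z m b' - z m a'‖ := abs_norm_sub_norm_le _ _
          _ = ‖(z m b' - z m ts) - (z m a' - z m ts)‖ := by congr 1; ring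
          _ ≤ ‖z m b' - z m ts‖ + ‖z m a' - z m ts‖ := norm_sub_le _ _
          _ ≤ η + η := add_le_add h9 h8
      have h11 : |‖z m b'‖ - ‖z m a'‖| = v - s := h5
      rw [h11] at h10
      linarith

/-- **The chain argument.** If the orbits of all points of a curve enter the small disc, and not
before the time `m`, and one of them enters at the time `m`, then all of them are in a slightly larger
disc at the time `m`. -/
theorem chain {s v η : ℝ} {z : ℕ → ℝ → ℂ} (hsv : s < v) (hη : 2 * η < v - s)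
    (hz : ∀ i, ContinuousOn (z i) (Icc 0 1))
    (H : ∀ (a b t₀ : ℝ) (j : ℕ), 0 ≤ a → b ≤ 1 → t₀ ∈ Icc a b → (∀ i < j, s ≤ ‖z i t₀‖) →
      ‖z j t₀‖ < s → (∀ t ∈ Icc a b, ‖z j t‖ ≤ v) →
      ∀ i < j, ‖z i t₀‖ ≤ v → ∀ t ∈ Icc a b, ‖z i t - z i t₀‖ ≤ η)
    (hex : ∀ t ∈ Icc (0 : ℝ) 1, ∃ j, ‖z j t‖ < s) {m : ℕ}
    (hi : ∀ i < m, ∀ t ∈ Icc (0 : ℝ) 1, s ≤ ‖z i t‖) {t₀ : ℝ} (ht₀ : t₀ ∈ Icc (0 : ℝ) 1)
    (hlt : ‖z m t₀‖ < s) : ∀ t ∈ Icc (0 : ℝ) 1, ‖z m t‖ ≤ v := by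
  have hJ : ∃ J : ℕ, ∀ t ∈ Icc (0 : ℝ) 1, ∃ j ≤ J, ‖z j t‖ < s := by
    have hopen : ∀ j : ℕ, IsOpen {t : Icc (0 : ℝ) 1 | ‖z j t‖ < s} := by
      intro j
      exact isOpen_lt ((continuousOn_iff_continuous_domRestrict.mp (hz j)).norm) continuous_const
    obtain ⟨T, hT⟩ := isCompact_univ.elim_finite_subcover
      (fun j : ℕ => {t : Icc (0 : ℝ) 1 | ‖z j t‖ < s}) hopen (by
        intro t _
        obtain ⟨j, hj⟩ := hex t t.2
        exact mem_iUnion.mpr ⟨j, hj⟩)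
    refine ⟨T.sup id, fun t ht => ?_⟩
    have h := hT (mem_univ (⟨t, ht⟩ : Icc (0 : ℝ) 1))
    simp only [mem_iUnion, mem_ofPred_eq] at h
    obtain ⟨j, hjT, hj⟩ := h
    exact ⟨j, Finset.le_sup (f := id) hjT, hj⟩
  obtain ⟨J, hJ⟩ := hJ
  by_contra hcon
  push Not at hcon
  obtain ⟨t₁, ht₁, hgt⟩ := hcon
  obtain ⟨a', b', h2, h3, h4, h5, h6⟩ := crossing' (g := fun t => ‖z m t‖) hsv ht₀ ht₁
    ((hz m).norm) hlt hgt
  have hsub : Icc a' b' ⊆ Icc (0 : ℝ) 1 := Icc_subset_Icc h2 h4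
  obtain ⟨ts, hts, j, hj, hj1, hj2, hj3⟩ := chain_aux hsv hη hz H hJ (J + 1) (m + 1) (by omega) a' b'
    h2 h3 h4 (by
      intro i him t ht
      rcases Nat.lt_succ_iff_lt_or_eq.mp him with h | h
      · exact hi i h t (hsub ht)
      · rw [h]; exact (h6 t ht).1)
  have h7 := (H a' b' ts j h2 h4 hts hj1 hj2 hj3) m (by omega) (h6 ts hts).2
  have h8 := h7 a' ⟨le_rfl, h3⟩
  have h9 := h7 b' ⟨h3, le_rfl⟩
  have h10 : |‖z m b'‖ - ‖z m a'‖| ≤ η + η := by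
    calc |‖z m b'‖ - ‖z m a'‖| ≤ ‖z m b' - z m a'‖ := abs_norm_sub_norm_le _ _
      _ = ‖(z m b' - z m ts) - (z m a' - z m ts)‖ := by congr 1; ring
      _ ≤ ‖z m b' - z m ts‖ + ‖z m a' - z m ts‖ := norm_sub_le _ _
      _ ≤ η + η := add_le_add h9 h8
  have h11 : |‖z m b'‖ - ‖z m a'‖| = v - s := h5
  rw [h11] at h10
  linarith

variable {d N : ℕ} {b P A : ℂ} {s θ : ℝ}

/-- A curve which stays in `|zo · 0 N| ≤ 2 s` stays in the zone. -/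
theorem Zone.stay (hZ : Zone d b N P A s θ) (hθ : 0 ≤ θ) (hθ1 : θ ≤ 1 / 100) (hs : 0 < s)
    (hnear : ‖zo d b 0 N‖ < s) {γ : ℝ → ℂ} {a' b' t₀ : ℝ} (ht₀ : t₀ ∈ Icc a' b') (hγ : γ t₀ = b)
    (hc : ContinuousOn γ (Icc a' b')) (hv : ∀ t ∈ Icc a' b', ‖zo d (γ t) 0 N‖ ≤ 2 * s) :
    ∀ t ∈ Icc a' b', ‖P‖ * ‖γ t - b‖ ≤ 4 * s := by
  have h0 : ‖A‖ * ‖(0 : ℂ)‖ ≤ 8 * s := by rw [norm_zero, mul_zero]; linarith
  have hb : ‖P‖ * ‖b - b‖ ≤ 8 * s := by rw [sub_self, norm_zero, mul_zero]; linarith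
  by_contra hcon
  push Not at hcon
  obtain ⟨t₁, ht₁, hgt⟩ := hcon
  have hcont : ContinuousOn (fun t => ‖P‖ * ‖γ t - b‖) (Icc a' b') :=
    continuousOn_const.mul ((hc.sub continuousOn_const).norm)
  have hsub : uIcc t₀ t₁ ⊆ Icc a' b' := (convex_Icc a' b').ordConnected.uIcc_subset ht₀ ht₁
  obtain ⟨u, hu, hu4⟩ := intermediate_value_uIcc (hcont.mono hsub)
    (show 4 * s ∈ uIcc (‖P‖ * ‖γ t₀ - b‖) (‖P‖ * ‖γ t₁ - b‖) by
      rw [hγ, sub_self, norm_zero, mul_zero]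
      rw [mem_uIcc]
      exact Or.inl ⟨by linarith, hgt.le⟩)
  have huI := hsub hu
  have hu4' : ‖P‖ * ‖γ u - b‖ = 4 * s := hu4
  have h1 := hZ.two (γ u) 0 b 0 (by linarith) h0 hb h0
  rw [sub_self, mul_zero, sub_zero, norm_zero, mul_zero, add_zero, hu4'] at h1
  have h2 := hv u huI
  have h3 : ‖P * (γ u - b)‖ = 4 * s := by rw [norm_mul, hu4']
  have h4 : ‖P * (γ u - b)‖ ≤ ‖zo d (γ u) 0 N - zo d b 0 N - P * (γ u - b)‖ +
      (‖zo d (γ u) 0 N‖ + ‖zo d b 0 N‖) := by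
    have e : P * (γ u - b) = (zo d (γ u) 0 N - zo d b 0 N) -
      (zo d (γ u) 0 N - zo d b 0 N - P * (γ u - b)) := by ring
    calc ‖P * (γ u - b)‖ = ‖(zo d (γ u) 0 N - zo d b 0 N) -
          (zo d (γ u) 0 N - zo d b 0 N - P * (γ u - b))‖ := by rw [← e]
      _ ≤ ‖zo d (γ u) 0 N - zo d b 0 N‖ + ‖zo d (γ u) 0 N - zo d b 0 N - P * (γ u - b)‖ :=
          norm_sub_le _ _
      _ ≤ _ := by
          have := norm_sub_le (zo d (γ u) 0 N) (zo d b 0 N)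
          linarith
  have h5 : θ * (4 * s) ≤ 1 / 100 * (4 * s) := by gcongr
  linarith

end Pool.Agent.N772.ST
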