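import Pool.Agent.N772.ST.Main
import Pool.Agent.N772.ST.Chain

/-!
# The components of the set of the entering parameters
-/

set_option autoImplicit false

open Set Filter Metric Topology

namespace Pool.Agent.N772.ST

open Pool.Agent.TH279.MD Pool.Agent.Y298.CA Pool.Agent.N253.LC Pool.Agent.N253.EC

/-- the parameters near `c₀` whose critical orbits enter the disc of radius `s` -/
def WW (d : ℕ) (c₀ : ℂ) (R s : ℝ) : Set ℂ := {t | ‖t - c₀‖ < R ∧ ∃ j : ℕ, ‖zo d t 0 j‖ < s}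

theorem WW_open (d : ℕ) (c₀ : ℂ) (R s : ℝ) : IsOpen (WW d c₀ R s) := by
  have e : WW d c₀ R s = {t : ℂ | ‖t - c₀‖ < R} ∩ ⋃ k : ℕ, {t : ℂ | ‖zo d t 0 k‖ < s} := by
    ext t
    simp [WW]
  rw [e]
  refine IsOpen.inter ?_ (isOpen_iUnion fun k => ?_)
  · exact isOpen_lt (continuous_id.sub continuous_const).norm continuous_const
  · have h : Continuous fun t : ℂ => zo d t 0 k :=
      continuous_iff_continuousAt.2 fun t => (zo_diff_k d k t).continuousAt
    exact isOpen_lt h.norm continuous_const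

variable {d : ℕ} {c₀ : ℂ} {R s θ : ℝ}

theorem component (hθ0 : 0 < θ) (hθ1 : θ ≤ 1 / 100) (hs : 0 < s)
    (HE : ∀ b : ℂ, ‖b - c₀‖ < R → ∀ N : ℕ, (∀ i < N, s ≤ ‖zo d b 0 i‖) → ‖zo d b 0 N‖ < s →
      ∃ P A : ℂ, Zone d b N P A s θ) {x : ℂ} (hx : x ∈ WW d c₀ R s) :
    ∃ b ∈ connectedComponentIn (WW d c₀ R s) x, ∃ N : ℕ,
      (∀ t ∈ connectedComponentIn (WW d c₀ R s) x, ∀ i < N, s ≤ ‖zo d t 0 i‖) ∧
      ‖zo d b 0 N‖ < s ∧ ∀ P A : ℂ, Zone d b N P A s θ →
        ∀ t ∈ connectedComponentIn (WW d c₀ R s) x, ‖P‖ * ‖t - b‖ ≤ 4 * s ∧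
          ‖zo d t 0 N‖ ≤ (1 + 3 * θ) * s := by
  classical
  obtain ⟨V, hV⟩ : ∃ V, V = connectedComponentIn (WW d c₀ R s) x := ⟨_, rfl⟩
  rw [← hV]
  have hVo : IsOpen V := by rw [hV]; exact (WW_open d c₀ R s).connectedComponentIn
  have hxV : x ∈ V := by rw [hV]; exact mem_connectedComponentIn hx
  have hVc : IsConnected V := by rw [hV]; exact isConnected_connectedComponentIn_iff.2 hx
  have hVW : V ⊆ WW d c₀ R s := by rw [hV]; exact connectedComponentIn_subset _ _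
  have hpc : IsPathConnected V := hVo.isConnected_iff_isPathConnected.1 hVc
  have hex : ∃ j : ℕ, ∃ b ∈ V, ‖zo d b 0 j‖ < s := by
    obtain ⟨-, j, hj⟩ := hVW hxV
    exact ⟨j, x, hxV, hj⟩
  obtain ⟨N, hN⟩ : ∃ N, N = Nat.find hex := ⟨_, rfl⟩
  obtain ⟨b, hbV, hb⟩ : ∃ b ∈ V, ‖zo d b 0 N‖ < s := by rw [hN]; exact Nat.find_spec hex
  have hmin : ∀ t ∈ V, ∀ i < N, s ≤ ‖zo d t 0 i‖ := by
    intro t ht i hi
    rw [hN] at hi
    have := Nat.find_min hex hi
    push Not at this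
    exact this t ht
  refine ⟨b, hbV, N, hmin, hb, fun P A hZ t ht => ?_⟩
  obtain ⟨p, hp⟩ := hpc.joinedIn b hbV t ht
  have hpV : ∀ u ∈ Icc (0 : ℝ) 1, p.extend u ∈ V := by
    intro u hu
    rw [Path.extend_apply p hu]
    exact hp _
  have hcont : Continuous p.extend := p.continuous_extend
  have hzc : ∀ i : ℕ, Continuous fun t : ℂ => zo d t 0 i := fun i =>
    continuous_iff_continuousAt.2 fun t => (zo_diff_k d i t).continuousAt
  have h2s : (1 + 3 * θ) * s ≤ 2 * s := by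
    have : 1 + 3 * θ ≤ 2 := by linarith
    gcongr
  have key := chain (s := s) (v := (1 + 3 * θ) * s) (η := θ * ((1 + 3 * θ) * s))
    (z := fun i u => zo d (p.extend u) 0 i) (by nlinarith) (by nlinarith [mul_pos hθ0 hs])
    (fun i => ((hzc i).comp hcont).continuousOn)
    (by
      intro a' b' t₀ j ha hb' ht₀ k1 k2 k3 i hi k4 u hu
      have ht₀I : t₀ ∈ Icc (0 : ℝ) 1 := ⟨ha.trans ht₀.1, ht₀.2.trans hb'⟩
      obtain ⟨P', A', hZ'⟩ := HE (p.extend t₀) (hVW (hpV t₀ ht₀I)).1 j k1 k2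
      have h3 := hZ'.stay hθ0.le hθ1 hs k2 (γ := p.extend) ht₀ rfl hcont.continuousOn
        (fun u hu => (k3 u hu).trans h2s) u hu
      have h4 := hZ'.close (p.extend u) 0 (by linarith) (by rw [norm_zero, mul_zero]; linarith) i hi
      refine h4.trans ?_
      gcongr)
    (fun u hu => (hVW (hpV u hu)).2) (m := N) (fun i hi u hu => hmin _ (hpV u hu) i hi)
    (t₀ := 0) ⟨le_rfl, zero_le_one⟩ (by
      show ‖zo d (p.extend 0) 0 N‖ < s
      rw [Path.extend_zero]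
      exact hb)
  have h5 := hZ.stay hθ0.le hθ1 hs hb (γ := p.extend) (a' := 0) (b' := 1) (t₀ := 0)
    ⟨le_rfl, zero_le_one⟩ p.extend_zero hcont.continuousOn (fun u hu => (key u hu).trans h2s) 1
    ⟨zero_le_one, le_rfl⟩
  have h6 : ‖zo d (p.extend 1) 0 N‖ ≤ (1 + 3 * θ) * s := key 1 ⟨zero_le_one, le_rfl⟩
  rw [Path.extend_one] at h5 h6
  exact ⟨h5, h6⟩

/-- The components are almost round discs: the outer estimate. -/
theorem outer_disc {b P A c : ℂ} {N : ℕ} (hZ : Zone d b N P A s θ) (hθ0 : 0 < θ)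
    (hθ1 : θ ≤ 1 / 100) (hs : 0 < s) (hc : zo d c 0 N = 0) (hcb : ‖P‖ * ‖c - b‖ ≤ 100 / 99 * s)
    {t : ℂ} (ht1 : ‖P‖ * ‖t - b‖ ≤ 4 * s) (ht2 : ‖zo d t 0 N‖ ≤ (1 + 3 * θ) * s) :
    (1 - θ) * (‖P‖ * ‖t - c‖) ≤ (1 + 3 * θ) * s := by
  have h0 : ‖A‖ * ‖(0 : ℂ)‖ ≤ 8 * s := by rw [norm_zero, mul_zero]; linarith
  have h1 := hZ.two t 0 c 0 (by linarith) h0 (by linarith) h0
  rw [sub_self, mul_zero, sub_zero, norm_zero, mul_zero, add_zero, hc, sub_zero] at h1
  have h2 : ‖P * (t - c)‖ ≤ ‖zo d t 0 N - P * (t - c)‖ + ‖zo d t 0 N‖ := by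
    have e : P * (t - c) = zo d t 0 N - (zo d t 0 N - P * (t - c)) := by ring
    calc ‖P * (t - c)‖ = ‖zo d t 0 N - (zo d t 0 N - P * (t - c))‖ := by rw [← e]
      _ ≤ _ := by
          have := norm_sub_le (zo d t 0 N) (zo d t 0 N - P * (t - c))
          linarith
  rw [norm_mul] at h2
  linarith

/-- The components are almost round discs: the inner estimate. -/
theorem inner_disc {b P A c : ℂ} {N : ℕ} (hZ : Zone d b N P A s θ) (hθ0 : 0 < θ)
    (hθ1 : θ ≤ 1 / 100) (hs : 0 < s) (hc : zo d c 0 N = 0) (hcb : ‖P‖ * ‖c - b‖ ≤ 100 / 99 * s)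
    (hb : ‖zo d b 0 N‖ < s) (hbR : ‖b - c₀‖ < R) {t : ℂ} (htR : ‖t - c₀‖ < R)
    (ht : (1 - θ) * (‖P‖ * ‖t - c‖) ≤ (1 - 8 * θ) * s) :
    t ∈ connectedComponentIn (WW d c₀ R s) b := by
  have h0 : ‖A‖ * ‖(0 : ℂ)‖ ≤ 8 * s := by rw [norm_zero, mul_zero]; linarith
  have hPt : ‖P‖ * ‖t - c‖ ≤ s := by
    have h1 : (1 - 8 * θ) * s ≤ (1 - θ) * s := by gcongr; linarith
    exact le_of_mul_le_mul_left (ht.trans h1) (by linarith)
  have hD : ‖P‖ * ‖t - b‖ ≤ 202 / 100 * s := by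
    have h1 : ‖t - b‖ ≤ ‖t - c‖ + ‖c - b‖ := norm_sub_le_norm_sub_add_norm_sub _ _ _
    have h2 : ‖P‖ * ‖t - b‖ ≤ ‖P‖ * ‖t - c‖ + ‖P‖ * ‖c - b‖ := by
      rw [← mul_add]
      gcongr
    linarith
  have hzt : ‖zo d t 0 N‖ ≤ (1 - 5 * θ) * s := by
    have h1 := hZ.two t 0 c 0 (by linarith) h0 (by linarith) h0
    rw [sub_self, mul_zero, sub_zero, norm_zero, mul_zero, add_zero, hc, sub_zero] at h1
    have h2 : ‖zo d t 0 N‖ ≤ ‖zo d t 0 N - P * (t - c)‖ + ‖P‖ * ‖t - c‖ := by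
      rw [← norm_mul]
      calc ‖zo d t 0 N‖ = ‖(zo d t 0 N - P * (t - c)) + P * (t - c)‖ := by rw [sub_add_cancel]
        _ ≤ _ := norm_add_le _ _
    have h3 : ‖zo d t 0 N‖ ≤ (1 + θ) * (‖P‖ * ‖t - c‖) := by linarith
    have h4 : (1 - θ) * ‖zo d t 0 N‖ ≤ (1 + θ) * ((1 - 8 * θ) * s) := by
      calc (1 - θ) * ‖zo d t 0 N‖ ≤ (1 - θ) * ((1 + θ) * (‖P‖ * ‖t - c‖)) := by
            gcongr
            linarith
        _ = (1 + θ) * ((1 - θ) * (‖P‖ * ‖t - c‖)) := by ring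
        _ ≤ _ := by gcongr
    have h5 : (1 + θ) * ((1 - 8 * θ) * s) ≤ (1 - θ) * ((1 - 5 * θ) * s) := by
      have : (1 + θ) * (1 - 8 * θ) ≤ (1 - θ) * (1 - 5 * θ) := by nlinarith
      calc (1 + θ) * ((1 - 8 * θ) * s) = ((1 + θ) * (1 - 8 * θ)) * s := by ring
        _ ≤ ((1 - θ) * (1 - 5 * θ)) * s := by gcongr
        _ = _ := by ring
    exact le_of_mul_le_mul_left (h4.trans h5) (by linarith)
  have hseg : segment ℝ b t ⊆ WW d c₀ R s := by
    intro q hq
    obtain ⟨u, ⟨hu0, hu1⟩, rfl⟩ := (segment_eq_image' ℝ b t ▸ hq :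
      q ∈ (fun θ : ℝ => b + θ • (t - b)) '' Icc (0 : ℝ) 1)
    obtain ⟨q, hqe⟩ : ∃ q : ℂ, q = b + (u : ℂ) * (t - b) := ⟨_, rfl⟩
    have hqq : b + u • (t - b) = q := by rw [hqe, Complex.real_smul]
    show b + u • (t - b) ∈ WW d c₀ R s
    rw [hqq]
    refine ⟨?_, N, ?_⟩
    · have h1 : q - c₀ = ((1 - u : ℝ) : ℂ) * (b - c₀) + (u : ℂ) * (t - c₀) := by
        rw [hqe]; push_cast; ring
      rw [h1]
      refine (norm_add_le _ _).trans_lt ?_
      rw [norm_mul, norm_mul, Complex.norm_real, Complex.norm_real, Real.norm_of_nonneg hu0,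
        Real.norm_of_nonneg (by linarith)]
      rcases hu0.lt_or_eq with h | h
      · have h3 : (1 - u) * ‖b - c₀‖ ≤ (1 - u) * R := by gcongr
        have h4 : u * ‖t - c₀‖ < u * R := by gcongr
        linarith
      · rw [← h]
        linarith
    · have hqb : q - b = (u : ℂ) * (t - b) := by rw [hqe]; ring
      have hqt : q - t = -(((1 - u : ℝ) : ℂ) * (t - b)) := by rw [hqe]; push_cast; ring
      have nqb : ‖P‖ * ‖q - b‖ = u * (‖P‖ * ‖t - b‖) := by
        rw [hqb, norm_mul, Complex.norm_real, Real.norm_of_nonneg hu0]; ring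
      have nqt : ‖P‖ * ‖q - t‖ = (1 - u) * (‖P‖ * ‖t - b‖) := by
        rw [hqt, norm_neg, norm_mul, Complex.norm_real, Real.norm_of_nonneg (by linarith)]; ring
      have hPD0 : 0 ≤ ‖P‖ * ‖t - b‖ := by positivity
      have hq8 : ‖P‖ * ‖q - b‖ ≤ 8 * s := by
        rw [nqb]
        nlinarith
      have hbb : ‖P‖ * ‖b - b‖ ≤ 8 * s := by rw [sub_self, norm_zero, mul_zero]; linarith
      have e1 := hZ.two q 0 b 0 hq8 h0 hbb h0
      have e2 := hZ.two q 0 t 0 hq8 h0 (by linarith) h0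
      rw [sub_self, mul_zero, sub_zero, norm_zero, mul_zero, add_zero, nqb] at e1
      rw [sub_self, mul_zero, sub_zero, norm_zero, mul_zero, add_zero, nqt] at e2
      have e3 : zo d q 0 N = ((1 - u : ℝ) : ℂ) * (zo d q 0 N - zo d b 0 N - P * (q - b)) +
          (u : ℂ) * (zo d q 0 N - zo d t 0 N - P * (q - t)) +
          (((1 - u : ℝ) : ℂ) * zo d b 0 N + (u : ℂ) * zo d t 0 N) := by
        rw [hqb, hqt]
        push_cast
        ring
      have e4 : ‖zo d q 0 N‖ ≤ (1 - u) * (θ * (u * (‖P‖ * ‖t - b‖))) +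
          u * (θ * ((1 - u) * (‖P‖ * ‖t - b‖))) + ((1 - u) * ‖zo d b 0 N‖ + u * ‖zo d t 0 N‖) := by
        rw [e3]
        refine (norm_add_le _ _).trans (add_le_add ((norm_add_le _ _).trans (add_le_add ?_ ?_))
          ((norm_add_le _ _).trans (add_le_add ?_ ?_)))
        · rw [norm_mul, Complex.norm_real, Real.norm_of_nonneg (by linarith)]
          gcongr
        · rw [norm_mul, Complex.norm_real, Real.norm_of_nonneg hu0]
          gcongr
        · rw [norm_mul, Complex.norm_real, Real.norm_of_nonneg (by linarith)]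
        · rw [norm_mul, Complex.norm_real, Real.norm_of_nonneg hu0]
      have e5 : (1 - u) * (θ * (u * (‖P‖ * ‖t - b‖))) + u * (θ * ((1 - u) * (‖P‖ * ‖t - b‖))) ≤
          u * (5 * θ * s) * (1 - u) := by
        have e6 : θ * (u * (1 - u)) * (2 * (‖P‖ * ‖t - b‖)) ≤ θ * (u * (1 - u)) * (5 * s) := by
          have : 0 ≤ θ * (u * (1 - u)) := mul_nonneg hθ0.le (mul_nonneg hu0 (by linarith))
          apply mul_le_mul_of_nonneg_left _ this
          linarith
        calc _ = θ * (u * (1 - u)) * (2 * (‖P‖ * ‖t - b‖)) := by ring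
          _ ≤ θ * (u * (1 - u)) * (5 * s) := e6
          _ = _ := by ring
      have e7 : u * ‖zo d t 0 N‖ ≤ u * ((1 - 5 * θ) * s) := by gcongr
      rcases hu1.lt_or_eq with h | h
      · have e8 : (1 - u) * ‖zo d b 0 N‖ < (1 - u) * s := by
          have : 0 < 1 - u := by linarith
          gcongr
        have e9 : u * (5 * θ * s) * (1 - u) ≤ u * (5 * θ * s) := by
          have : 0 ≤ u * (5 * θ * s) := by positivity
          nlinarith
        nlinarith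
      · rw [h] at e4 e5
        have e9 : 0 < θ * s := by positivity
        nlinarith
  have hpre : IsPreconnected (segment ℝ b t) := (convex_segment b t).isPreconnected
  exact hpre.subset_connectedComponentIn (left_mem_segment ℝ b t) hseg (right_mem_segment ℝ b t)

/-- Connected sets which enter and meet the component stay in it. -/
theorem in_comp {x : ℂ} (hx : x ∈ WW d c₀ R s) {r : ℝ} (hr : r < R / 2)
    (hV : ∀ t ∈ connectedComponentIn (WW d c₀ R s) x, ‖t - x‖ ≤ r) (hxR : ‖x - c₀‖ ≤ R / 2)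
    {Γ : Set ℂ} (hΓ : IsPreconnected Γ) (hxΓ : x ∈ Γ)
    (hW : ∀ t ∈ Γ, ‖t - c₀‖ < R → t ∈ WW d c₀ R s) :
    Γ ⊆ connectedComponentIn (WW d c₀ R s) x := by
  obtain ⟨V, hVe⟩ : ∃ V, V = connectedComponentIn (WW d c₀ R s) x := ⟨_, rfl⟩
  rw [← hVe] at hV ⊢
  have hVo : IsOpen V := by rw [hVe]; exact (WW_open d c₀ R s).connectedComponentIn
  have hxV : x ∈ V := by rw [hVe]; exact mem_connectedComponentIn hx
  have hsub : closure V ∩ Γ ⊆ V := by
    rintro y ⟨hy, hyΓ⟩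
    have hyc : ‖y - x‖ ≤ r := by
      have h1 : closure V ⊆ closedBall x r := closure_minimal (fun t ht => by
        rw [mem_closedBall, dist_eq_norm]; exact hV t ht) isClosed_closedBall
      have := h1 hy
      rwa [mem_closedBall, dist_eq_norm] at this
    have hyR : ‖y - c₀‖ < R := by
      have := norm_add_le (y - x) (x - c₀)
      rw [sub_add_sub_cancel] at this
      linarith
    have hyW := hW y hyΓ hyR
    have hCo : IsOpen (connectedComponentIn (WW d c₀ R s) y) := (WW_open d c₀ R s).connectedComponentIn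
    obtain ⟨w, hw1, hw2⟩ := mem_closure_iff.1 hy _ hCo (mem_connectedComponentIn hyW)
    have e1 := connectedComponentIn_eq hw1
    rw [hVe] at hw2
    have e2 := connectedComponentIn_eq hw2
    rw [hVe, e2, ← e1]
    exact mem_connectedComponentIn hyW
  by_contra hcon
  rw [not_subset] at hcon
  obtain ⟨y, hyΓ, hyV⟩ := hcon
  have hUo : IsOpen (closure V)ᶜ := isClosed_closure.isOpen_compl
  obtain ⟨w, hw1, hw2, hw3⟩ := hΓ V (closure V)ᶜ hVo hUo (fun z hz => by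
    by_cases h : z ∈ closure V
    · exact Or.inl (hsub ⟨h, hz⟩)
    · exact Or.inr h) ⟨x, hxΓ, hxV⟩ ⟨y, hyΓ, fun h => hyV (hsub ⟨h, hyΓ⟩)⟩
  exact hw3 (subset_closure hw2)

end Pool.Agent.N772.ST
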