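import Pool.Agent.N772.ST.Est
import Pool.Agent.N253.LS.Fin
import Pool.Agent.N253.EC.Pass

/-!
# The renormalisation zone of a parameter whose critical orbit enters a small disc
-/

set_option autoImplicit false

open Set Filter Metric Topology

namespace Pool.Agent.N772.ST

open Pool.Agent.TH279.MD Pool.Agent.Y298.CA Pool.Agent.N253.LC Pool.Agent.N253.EC

/-- in the zone the orbits stay relatively close and the last point depends almost affinely on the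
parameter `k` and on the point `k + u` -/
structure Zone (d : ℕ) (b : ℂ) (N : ℕ) (P A : ℂ) (s θ : ℝ) : Prop where
  close : ∀ k u : ℂ, ‖P‖ * ‖k - b‖ ≤ 8 * s → ‖A‖ * ‖u‖ ≤ 8 * s →
    ∀ i < N, ‖zo d k u i - zo d b 0 i‖ ≤ θ * ‖zo d b 0 i‖
  two : ∀ k u k' u' : ℂ, ‖P‖ * ‖k - b‖ ≤ 8 * s → ‖A‖ * ‖u‖ ≤ 8 * s → ‖P‖ * ‖k' - b‖ ≤ 8 * s →
    ‖A‖ * ‖u'‖ ≤ 8 * s → ‖zo d k u N - zo d k' u' N - P * (k - k') - A * (u - u')‖ ≤
      θ * (‖P‖ * ‖k - k'‖ + ‖A‖ * ‖u - u'‖)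

theorem engine {d : ℕ} (hd : 2 ≤ d) {χ : ℝ} {c₀ : ℂ} (hL : Lyap d χ c₀) {τ ε : ℝ}
    (hτd : 3 / (4 * (d : ℝ)) ≤ τ) (hτ1 : τ * ((d : ℝ) - 1) < 1) (hε : 0 < ε) :
    ∃ α R₀ : ℝ, 0 < α ∧ α ≤ τ / 4 ∧ 0 < R₀ ∧ R₀ ≤ 1 / 4 ∧
      ∀ R : ℝ, 0 < R → R ≤ R₀ → R ^ α ≤ 1 / 100 ∧
      ∀ b : ℂ, ‖b - c₀‖ ≤ R → ∀ N : ℕ, (∀ i < N, R ^ τ ≤ ‖zo d b 0 i‖) → ‖zo d b 0 N‖ < R ^ τ →
      ∃ P A : ℂ, P ≠ 0 ∧ A ≠ 0 ∧ R ^ (ε - 1) ≤ ‖P‖ ∧ 4 * R ^ (-((τ + α) * ((d : ℝ) - 1))) ≤ ‖A‖ ∧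
        P = deriv (fun t : ℂ => (f d t)^[N] t) b ∧ A = deriv ((f d b)^[N]) b ∧
        Zone d b N P A (R ^ τ) (R ^ α) := by
  have hdR : (2 : ℝ) ≤ d := by exact_mod_cast hd
  have hτ0 : 0 < τ := lt_of_lt_of_le (by positivity) hτd
  have hχ : 0 < χ := hL.1
  obtain ⟨g, hg⟩ : ∃ g, g = (1 - τ * ((d : ℝ) - 1)) / 2 := ⟨_, rfl⟩
  have hgp : 0 < g := by rw [hg]; linarith
  have hτg : τ * ((d : ℝ) - 1) < 1 - g := by rw [hg]; linarith
  have hg2 : 1 - τ * ((d : ℝ) - 1) = 2 * g := by rw [hg]; ring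
  obtain ⟨κ, η, a, r2, hκ, hκle, hη, ha0, ha1, hr2, hr24, hexn⟩ :=
    Pool.Agent.N253.LS.exn t_PASS d χ c₀ hd hL τ g hτ0 hτg hgp
  obtain ⟨κB, hκB, hback⟩ := Pool.Agent.N253.LC.t_BACK d hd
  obtain ⟨α, hα⟩ : ∃ α, α = min (τ * a / 4) (g / (8 * d)) := ⟨_, rfl⟩
  have hα0 : 0 < α := by rw [hα]; positivity
  have hα1 : 4 * α ≤ τ * a := by
    have : α ≤ τ * a / 4 := by rw [hα]; exact min_le_left _ _
    linarith
  have hα2 : 8 * d * α ≤ g := by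
    have : α ≤ g / (8 * d) := by rw [hα]; exact min_le_right _ _
    rw [le_div_iff₀ (by positivity)] at this
    linarith
  have hα3 : 16 * α ≤ g := by nlinarith
  obtain ⟨e, he⟩ : ∃ e, e = min (min (α / 8) (ε / 8)) (min (τ / 2) (1 / 4)) := ⟨_, rfl⟩
  have he0 : 0 < e := by
    rw [he]
    exact lt_min (lt_min (by positivity) (by positivity)) (lt_min (by positivity) (by norm_num))
  have he1 : e ≤ α / 8 := by rw [he]; exact (min_le_left _ _).trans (min_le_left _ _)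
  have he2 : e ≤ ε / 8 := by rw [he]; exact (min_le_left _ _).trans (min_le_right _ _)
  have he3 : e ≤ τ / 2 := by rw [he]; exact (min_le_right _ _).trans (min_le_left _ _)
  have he4 : e ≤ 1 / 4 := by rw [he]; exact (min_le_right _ _).trans (min_le_right _ _)
  obtain ⟨C, κ1, r1, hC, hκ1, hκ11, hr1, hr14, hpass⟩ := t_PASS d χ c₀ hd hL e he0 (by linarith)
  obtain ⟨Q, hQ⟩ : ∃ Q, Q = Real.exp η - 1 := ⟨_, rfl⟩
  have hQp : 0 < Q := by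
    rw [hQ]
    have := Real.one_lt_exp_iff.2 hη
    linarith
  have hκQ : 0 < κ * Q := by positivity
  obtain ⟨C₂, hC₂⟩ : ∃ C₂, C₂ = (C + 1 / e) / χ + 1 + 1 / η := ⟨_, rfl⟩
  have hC₂0 : 0 < C₂ := by rw [hC₂]; positivity
  obtain ⟨C₆, hC₆⟩ : ∃ C₆, C₆ = 24 / (κ * Q) + 64 * C₂ / (κ ^ 2 * Q) := ⟨_, rfl⟩
  have hC₆0 : 0 < C₆ := by rw [hC₆]; positivity
  obtain ⟨C₇, hC₇⟩ : ∃ C₇, C₇ = 3 * C₂ / κ1 + 1 / (κ * Q) := ⟨_, rfl⟩
  have hC₇0 : 0 < C₇ := by rw [hC₇]; positivity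
  obtain ⟨K₀, hK₀⟩ : ∃ K₀, K₀ = 16 * d * C₆ * C₇ + 8 * d * C₆ + 2 * C₆ + C₆ / κB := ⟨_, rfl⟩
  have hK₀0 : 0 < K₀ := by rw [hK₀]; positivity
  obtain ⟨s1, hs1, hS1⟩ := ENTaux.small_rpow (τ - e) κ1 (by linarith) hκ1
  obtain ⟨s2, hs2, hS2⟩ := ENTaux.small_rpow (g - 2 * e) (κ * Q / 2) (by linarith) (by positivity)
  obtain ⟨s3, hs3, hS3⟩ := ENTaux.small_rpow α (1 / 100) hα0 (by norm_num)
  obtain ⟨s4, hs4, hS4⟩ := ENTaux.small_rpow (2 * α) (1 / K₀) (by linarith) (by positivity)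
  obtain ⟨s5, hs5, hS5⟩ := ENTaux.small_rpow (ε - 2 * e) (κ / 8) (by linarith) (by positivity)
  obtain ⟨s6, hs6, hS6⟩ := ENTaux.small_rpow (1 - 2 * e - (τ + α) * ((d : ℝ) - 1)) (κ / 16)
    (by nlinarith) (by positivity)
  refine ⟨α, min (min r1 r2) (min (min s1 s2) (min (min s3 s4) (min s5 s6))), hα0, by nlinarith,
    lt_min (lt_min hr1 hr2) (lt_min (lt_min hs1 hs2) (lt_min (lt_min hs3 hs4) (lt_min hs5 hs6))),
    ((min_le_left _ _).trans (min_le_left _ _)).trans hr14, fun R hR hRR => ?_⟩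
  have hRr1 : R ≤ r1 := hRR.trans ((min_le_left _ _).trans (min_le_left _ _))
  have hRr2 : R ≤ r2 := hRR.trans ((min_le_left _ _).trans (min_le_right _ _))
  have hRs : R ≤ min (min s1 s2) (min (min s3 s4) (min s5 s6)) := hRR.trans (min_le_right _ _)
  have hR1' := hS1 R hR (hRs.trans ((min_le_left _ _).trans (min_le_left _ _)))
  have hR2' := hS2 R hR (hRs.trans ((min_le_left _ _).trans (min_le_right _ _)))
  have hR3' := hS3 R hR (hRs.trans ((min_le_right _ _).trans ((min_le_left _ _).trans (min_le_left _ _))))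
  have hR4' := hS4 R hR (hRs.trans ((min_le_right _ _).trans ((min_le_left _ _).trans (min_le_right _ _))))
  have hR5' := hS5 R hR (hRs.trans ((min_le_right _ _).trans ((min_le_right _ _).trans (min_le_left _ _))))
  have hR6' := hS6 R hR (hRs.trans ((min_le_right _ _).trans ((min_le_right _ _).trans (min_le_right _ _))))
  have hR1 : R ≤ 1 := by linarith
  refine ⟨hR3', fun b hb N hfar hnear => ?_⟩
  obtain ⟨n, hn0, hn1, hn2⟩ := hpass R hR hRr1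
  obtain ⟨hp1, hp2, hp3⟩ := hn1 b b hb (by rw [sub_self, norm_zero]; exact hR.le)
  have hzo : ∀ i, zo d b 0 i = (f d b)^[i] b := fun i => by unfold zo; rw [add_zero]
  have hb3 : ‖b‖ ≤ 3 := (hp1 0 (Nat.zero_le n)).1
  obtain ⟨s, hs⟩ : ∃ s, s = R ^ τ := ⟨_, rfl⟩
  rw [← hs] at hfar hnear
  have hs0 : 0 < s := by rw [hs]; exact Real.rpow_pos_of_pos hR _
  have hs1' : s ≤ 1 := by rw [hs]; exact Real.rpow_le_one hR.le hR1 hτ0.le
  -- `n ≤ N`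
  have hnN : n ≤ N := by
    by_contra hcon
    push Not at hcon
    have h5 := hp2 N hcon
    rw [← hzo] at h5
    have h6 : R ^ τ = R ^ (τ - e) * R ^ e := by
      rw [← Real.rpow_add hR]
      congr 1
      ring
    have h7 : s ≤ κ1 * R ^ e := by
      rw [hs, h6]
      exact mul_le_mul_of_nonneg_right hR1' (Real.rpow_nonneg hR.le _)
    linarith
  -- the size of `n`
  have hlog : Real.log (1 / R) ≤ R ^ (-e) / e := by
    rw [one_div]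
    have h5 := Real.log_le_rpow_div (x := R⁻¹) (by positivity) he0
    rwa [Real.inv_rpow hR.le, ← Real.rpow_neg hR.le] at h5
  have hRe : 1 ≤ R ^ (-e) := by
    rw [Real.rpow_neg hR.le]
    exact (one_le_inv₀ (Real.rpow_pos_of_pos hR _)).2 (Real.rpow_le_one hR.le hR1 he0.le)
  have hnC : (n : ℝ) + 1 + 1 / η ≤ C₂ * R ^ (-e) := by
    have h5 : (n : ℝ) * χ ≤ C + (1 - e) * Real.log (1 / R) := by
      have := le_abs_self (n * χ - (1 - e) * Real.log (1 / R))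
      linarith
    have hlog0 : 0 ≤ Real.log (1 / R) := Real.log_nonneg (by
      rw [one_div]
      exact (one_le_inv₀ hR).2 hR1)
    have h6 : (n : ℝ) * χ ≤ (C + 1 / e) * R ^ (-e) := by
      have h7 : C ≤ C * R ^ (-e) := le_mul_of_one_le_right (by linarith) hRe
      have h8 : (1 - e) * Real.log (1 / R) ≤ R ^ (-e) / e := by nlinarith
      have h9 : R ^ (-e) / e = 1 / e * R ^ (-e) := by ring
      linarith
    have h7 : (n : ℝ) ≤ (C + 1 / e) / χ * R ^ (-e) := by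
      rw [div_mul_eq_mul_div, le_div_iff₀ hχ]
      exact h6
    have h8 : 1 ≤ 1 * R ^ (-e) := by linarith
    have h9 : 1 / η ≤ 1 / η * R ^ (-e) := le_mul_of_one_le_right (by positivity) hRe
    rw [hC₂]
    linarith
  have hn1C : (n : ℝ) + 1 ≤ C₂ * R ^ (-e) := by
    have : 0 < 1 / η := by positivity
    linarith
  -- the orbit
  have hy4 : ∀ i ≤ N, ‖zo d b 0 i‖ ≤ 4 := stay4 hd hb3 (by linarith)
  have hyp : ∀ i < N, 0 < ‖zo d b 0 i‖ := fun i hi => lt_of_lt_of_le hs0 (hfar i hi)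
  have hyne : ∀ i < N, zo d b 0 i ≠ 0 := fun i hi => norm_pos_iff.1 (hyp i hi)
  have hy : ∀ i, zo d b 0 (i + 1) = f d b (zo d b 0 i) := fun i => zo_succ d b 0 i
  obtain ⟨Nn, hNn⟩ : ∃ Nn, Nn = R ^ (g - 1) := ⟨_, rfl⟩
  have hNp : 0 < Nn := by rw [hNn]; exact Real.rpow_pos_of_pos hR _
  have hNinv : Nn⁻¹ = R ^ (1 - g) := by
    rw [hNn, ← Real.rpow_neg hR.le]
    congr 1
    ring
  have hA : ∀ i l, i ≤ l → l ≤ N → κ * Nn⁻¹ * Real.exp (η * ((l - i : ℕ) : ℝ)) ≤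
      ‖deriv ((f d b)^[l - i]) (zo d b 0 i)‖ := by
    intro i l hil hlj
    rw [hNinv]
    refine (hexn b R (zo d b 0 i) (l - i) hR hRr2 hb ?_ ?_).1
    · intro m hm
      rw [ENTaux.it_y hy]
      exact hy4 _ (by omega)
    · intro m hm
      rw [ENTaux.it_y hy, ← hs]
      exact hfar _ (by omega)
  have hB : ∀ i < N, κ * Real.exp (η * ((N - i : ℕ) : ℝ)) * ‖zo d b 0 i‖ ^ (-a) ≤
      ‖deriv ((f d b)^[N - i]) (zo d b 0 i)‖ := by
    intro i hij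
    refine (hexn b R (zo d b 0 i) (N - i) hR hRr2 hb ?_ ?_).2 (by omega) ?_
    · intro m hm
      rw [ENTaux.it_y hy]
      exact hy4 _ (by omega)
    · intro m hm
      rw [ENTaux.it_y hy, ← hs]
      exact hfar _ (by omega)
    · rw [ENTaux.it_y hy]
      have h5 : i + (N - i) = N := by omega
      rw [h5]
      refine hnear.le.trans ?_
      rw [hs]
      exact Real.rpow_le_rpow_of_exponent_ge hR hR1 hτd
  have hW : ∀ i, ‖deriv ((f d b)^[N - i]) (zo d b 0 i)‖ = ‖Wp d b N i‖ := fun i => by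
    rw [Wp_deriv, hzo]
  have hBW : ∀ i < N, κ * Real.exp (η * ((N - i : ℕ) : ℝ)) * ‖zo d b 0 i‖ ^ (-a) ≤ ‖Wp d b N i‖ :=
    fun i hi => by rw [← hW]; exact hB i hi
  have hlow : ∀ i ≤ N, κ / 4 * Real.exp (η * ((N - i : ℕ) : ℝ)) ≤ ‖Wp d b N i‖ := fun i hi =>
    low hκ hκle ha0 ha1 hy4 hyp hBW hi
  have hWne : ∀ i, Wp d b N i ≠ 0 := fun i => Wp_ne d hd hyne i
  have hDn0 : 0 < ‖Wp d b N n‖ := norm_pos_iff.2 (hWne n)
  have hDn1 : κ / 4 ≤ ‖Wp d b N n‖ := by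
    refine le_trans ?_ (hlow n hnN)
    exact le_mul_of_one_le_right (by positivity) (Real.one_le_exp (by positivity))
  -- sums
  have hsumn : ∑ l ∈ Finset.Ico (n + 1) (N + 1), ‖Wp d b N l‖ / ‖Wp d b N n‖ ≤
      R ^ (g - 1) / (κ * Q) := by
    have h5 := ENTaux.D_sum hy hκ hη hNp hA hnN
    simp only [hW] at h5
    rwa [hNn, ← hQ] at h5
  have hPn : R ^ (2 * e - 1) ≤ ‖∑ j ∈ Finset.range (n + 1), Wp d b n j‖ := by
    rw [← sum_deriv]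
    exact ENTaux.deriv_lower (fun t : ℂ => (f d t)^[n] t) (ENTaux.diff_xi d n) c₀ b R
      (R ^ (2 * e - 1)) hR hb (fun c' hc' => hn2 b c' hb hc')
  obtain ⟨P, hP⟩ : ∃ P, P = ∑ j ∈ Finset.range (N + 1), Wp d b N j := ⟨_, rfl⟩
  obtain ⟨A, hAd⟩ : ∃ A, A = Wp d b N 0 := ⟨_, rfl⟩
  have hPlow : ‖Wp d b N n‖ * (R ^ (2 * e - 1) / 2) ≤ ‖P‖ := by
    rw [hP]
    exact P_low hnN (hWne n) hR hsumn hPn hκQ hR2'
  have hRe2 : 0 < R ^ (2 * e - 1) := Real.rpow_pos_of_pos hR _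
  have hP0 : 0 < ‖P‖ := lt_of_lt_of_le (by positivity) hPlow
  have hA0 : 0 < ‖A‖ := by rw [hAd]; exact norm_pos_iff.2 (hWne 0)
  have hRR' : R ^ (2 * e - 1) * R ^ (1 - 2 * e) = 1 := by
    rw [← Real.rpow_add hR]
    have : 2 * e - 1 + (1 - 2 * e) = 0 := by ring
    rw [this, Real.rpow_zero]
  have hRe3 : 0 < R ^ (1 - 2 * e) := Real.rpow_pos_of_pos hR _
  have hDnP : ‖Wp d b N n‖ ≤ 2 * ‖P‖ * R ^ (1 - 2 * e) := by
    calc ‖Wp d b N n‖ = 2 * (‖Wp d b N n‖ * (R ^ (2 * e - 1) / 2)) * R ^ (1 - 2 * e) := by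
          have : 2 * (‖Wp d b N n‖ * (R ^ (2 * e - 1) / 2)) * R ^ (1 - 2 * e) =
            ‖Wp d b N n‖ * (R ^ (2 * e - 1) * R ^ (1 - 2 * e)) := by ring
          rw [this, hRR', mul_one]
      _ ≤ _ := by gcongr
  -- Cauchy
  have hup : ‖deriv ((f d b)^[n]) b‖ ≤ 3 / R := by
    refine Complex.norm_deriv_le_of_forall_mem_sphere_norm_le hR (ENTaux.diff_it d b n).diffContOnCl
      fun x hx => ?_
    rw [mem_sphere, dist_eq_norm] at hx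
    exact ((hn1 b x hb hx.le).1 n le_rfl).1
  have hDup : ∑ j ∈ Finset.range (N + 1), ‖Wp d b N j‖ ≤ 2 * C₇ * R ^ (-(3 * e)) * ‖P‖ := by
    have h5 := D_up hnN (hWne n) hR hR1 hsumn hκQ hgp.le hκ1 (fun j hj => (hp1 j hj).2) hup he0.le hn1C
    rw [← hC₇] at h5
    have h6 : R ^ (1 - 2 * e) * R⁻¹ * R ^ (-e) = R ^ (-(3 * e)) := by
      rw [← Real.rpow_neg_one, ← Real.rpow_add hR, ← Real.rpow_add hR]
      congr 1
      ring
    calc _ ≤ _ := h5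
      _ ≤ (2 * ‖P‖ * R ^ (1 - 2 * e)) * (R⁻¹ * (C₇ * R ^ (-e))) := by
          have : 0 < R⁻¹ := inv_pos.2 hR
          gcongr
      _ = 2 * C₇ * (R ^ (1 - 2 * e) * R⁻¹ * R ^ (-e)) * ‖P‖ := by ring
      _ = _ := by rw [h6]
  -- the bounds of the displacements
  obtain ⟨E, hEd⟩ : ∃ E : ℕ → ℝ, ∀ i, E i = 24 * s / ‖Wp d b N i‖ +
      8 * s / ‖P‖ * ∑ l ∈ Finset.Ico (i + 1) (N + 1), ‖Wp d b N l‖ / ‖Wp d b N i‖ := ⟨_, fun i => rfl⟩
  have hE0 : ∀ i, 0 ≤ E i := fun i => by rw [hEd]; positivity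
  have hEsum : ∑ i ∈ Finset.range N, E i / ‖zo d b 0 i‖ ≤ C₆ * R ^ (4 * α) := by
    have h5 := ENTaux.E_sum hy hκ hη hNp ha1 hs0 hfar hA hB (24 * s) (8 * s / ‖P‖) (by positivity)
      (by positivity)
    simp only [hW] at h5
    simp only [hEd]
    refine h5.trans ?_
    rw [← hQ]
    have h6 : 24 * s * s ^ (a - 1) = 24 * R ^ (τ * a) := by
      have h7 : s ^ a = R ^ (τ * a) := by rw [hs, ← Real.rpow_mul hR.le]
      rw [← h7, Real.rpow_sub hs0, Real.rpow_one]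
      field_simp
    rw [h6]
    have h8 : R ^ (τ * a) ≤ R ^ (4 * α) := Real.rpow_le_rpow_of_exponent_ge hR hR1 hα1
    have h9 : (N : ℝ) ≤ 4 / κ * (C₂ * R ^ (-e)) * ‖Wp d b N n‖ := by
      have e1 : (N : ℝ) = n + ((N - n : ℕ) : ℝ) := by
        rw [Nat.cast_sub hnN]
        ring
      have e2 := exp_lin hη (N - n)
      have e3 := hlow n hnN
      have e4 : Real.exp (η * ((N - n : ℕ) : ℝ)) ≤ 4 / κ * ‖Wp d b N n‖ := by
        rw [div_mul_eq_mul_div, le_div_iff₀ hκ]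
        linarith
      have e5 : 1 ≤ 4 / κ * ‖Wp d b N n‖ := by
        rw [div_mul_eq_mul_div, le_div_iff₀ hκ]
        linarith
      calc (N : ℝ) = n + ((N - n : ℕ) : ℝ) := e1
        _ ≤ n * (4 / κ * ‖Wp d b N n‖) + 1 / η * (4 / κ * ‖Wp d b N n‖) := by
            apply add_le_add
            · exact le_mul_of_one_le_right (Nat.cast_nonneg n) e5
            · exact e2.trans (by gcongr)
        _ = (n + 1 / η) * (4 / κ * ‖Wp d b N n‖) := by ring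
        _ ≤ (C₂ * R ^ (-e)) * (4 / κ * ‖Wp d b N n‖) := by
            gcongr
            linarith
        _ = _ := by ring
    have h10 : (N : ℝ) / ‖P‖ ≤ 8 * C₂ / κ * (R ^ (-e) * R ^ (1 - 2 * e)) := by
      rw [div_le_iff₀ hP0]
      calc (N : ℝ) ≤ 4 / κ * (C₂ * R ^ (-e)) * ‖Wp d b N n‖ := h9
        _ ≤ 4 / κ * (C₂ * R ^ (-e)) * (2 * ‖P‖ * R ^ (1 - 2 * e)) := by gcongr
        _ = _ := by ring
    have h11 : Nn * (R ^ (-e) * R ^ (1 - 2 * e)) ≤ R ^ (4 * α) := by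
      rw [hNn, ← Real.rpow_add hR, ← Real.rpow_add hR]
      apply Real.rpow_le_rpow_of_exponent_ge hR hR1
      linarith
    have h12 : 8 * s / ‖P‖ * (Nn / (κ * Q)) * N / s ≤ 64 * C₂ / (κ ^ 2 * Q) * R ^ (4 * α) := by
      calc 8 * s / ‖P‖ * (Nn / (κ * Q)) * N / s = 8 / (κ * Q) * Nn * (N / ‖P‖) := by
            field_simp
        _ ≤ 8 / (κ * Q) * Nn * (8 * C₂ / κ * (R ^ (-e) * R ^ (1 - 2 * e))) := by gcongr
        _ = 64 * C₂ / (κ ^ 2 * Q) * (Nn * (R ^ (-e) * R ^ (1 - 2 * e))) := by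
            field_simp
            ring
        _ ≤ _ := by gcongr
    have h13 : 24 * R ^ (τ * a) / (κ * Q) ≤ 24 / (κ * Q) * R ^ (4 * α) := by
      calc 24 * R ^ (τ * a) / (κ * Q) = 24 / (κ * Q) * R ^ (τ * a) := by ring
        _ ≤ _ := by gcongr
    rw [hC₆, add_mul]
    exact add_le_add h13 h12
  -- smallness
  have hRα : 0 < R ^ α := Real.rpow_pos_of_pos hR _
  have hR2α : R ^ (2 * α) * K₀ ≤ 1 := by
    rw [le_div_iff₀ hK₀0] at hR4'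
    exact hR4'
  have hR24 : R ^ (4 * α) ≤ R ^ (2 * α) * R ^ α := by
    rw [← Real.rpow_add hR]
    apply Real.rpow_le_rpow_of_exponent_ge hR hR1
    linarith
  have hRα1 : R ^ α ≤ 1 := by linarith
  have hR2α0 : 0 < R ^ (2 * α) := Real.rpow_pos_of_pos hR _
  have hν1 : C₆ * R ^ (4 * α) ≤ κB := by
    have h5 : C₆ / κB ≤ K₀ := by
      rw [hK₀]
      have : 0 ≤ 16 * d * C₆ * C₇ + 8 * d * C₆ + 2 * C₆ := by positivity
      linarith
    have h6 : R ^ (2 * α) * (C₆ / κB) ≤ 1 := by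
      refine le_trans ?_ hR2α
      gcongr
    have h7 : R ^ (2 * α) * C₆ ≤ κB := by
      rw [← mul_div_assoc, div_le_one hκB] at h6
      exact h6
    calc C₆ * R ^ (4 * α) ≤ C₆ * (R ^ (2 * α) * R ^ α) := by gcongr
      _ ≤ C₆ * (R ^ (2 * α) * 1) := by gcongr
      _ ≤ κB := by linarith
  have hν2 : 2 * C₆ * R ^ (4 * α) ≤ R ^ α := by
    have h5 : 2 * C₆ ≤ K₀ := by
      rw [hK₀]
      have : 0 ≤ 16 * d * C₆ * C₇ + 8 * d * C₆ + C₆ / κB := by positivity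
      linarith
    calc 2 * C₆ * R ^ (4 * α) ≤ K₀ * (R ^ (2 * α) * R ^ α) := by gcongr
      _ = R ^ (2 * α) * K₀ * R ^ α := by ring
      _ ≤ 1 * R ^ α := by gcongr
      _ = R ^ α := one_mul _
  obtain ⟨Θ, hΘ⟩ : ∃ Θ, Θ = 4 * d * C₆ * R ^ (4 * α) := ⟨_, rfl⟩
  have hΘ0 : 0 ≤ Θ := by rw [hΘ]; positivity
  have hΘ1 : 2 * Θ ≤ R ^ α := by
    have h5 : 8 * d * C₆ ≤ K₀ := by
      rw [hK₀]
      have : 0 ≤ 16 * d * C₆ * C₇ + 2 * C₆ + C₆ / κB := by positivity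
      linarith
    rw [hΘ]
    calc 2 * (4 * d * C₆ * R ^ (4 * α)) = 8 * d * C₆ * R ^ (4 * α) := by ring
      _ ≤ K₀ * (R ^ (2 * α) * R ^ α) := by gcongr
      _ = R ^ (2 * α) * K₀ * R ^ α := by ring
      _ ≤ 1 * R ^ α := by gcongr
      _ = R ^ α := one_mul _
  have hΘ2 : 2 * Θ * ∑ j ∈ Finset.range (N + 1), ‖Wp d b N j‖ ≤ R ^ α * ‖P‖ := by
    have h5 : 16 * d * C₆ * C₇ ≤ K₀ := by
      rw [hK₀]
      have : 0 ≤ 8 * d * C₆ + 2 * C₆ + C₆ / κB := by positivity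
      linarith
    have h6 : R ^ (4 * α) * R ^ (-(3 * e)) ≤ R ^ (2 * α) * R ^ α := by
      rw [← Real.rpow_add hR, ← Real.rpow_add hR]
      apply Real.rpow_le_rpow_of_exponent_ge hR hR1
      linarith
    calc 2 * Θ * ∑ j ∈ Finset.range (N + 1), ‖Wp d b N j‖ ≤
          2 * Θ * (2 * C₇ * R ^ (-(3 * e)) * ‖P‖) := by gcongr
      _ = 16 * d * C₆ * C₇ * (R ^ (4 * α) * R ^ (-(3 * e))) * ‖P‖ := by rw [hΘ]; ring
      _ ≤ K₀ * (R ^ (2 * α) * R ^ α) * ‖P‖ := by gcongr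
      _ = R ^ (2 * α) * K₀ * (R ^ α * ‖P‖) := by ring
      _ ≤ 1 * (R ^ α * ‖P‖) := by gcongr
      _ = _ := one_mul _
  have hΘle : Θ ≤ 1 := by linarith
  have hlin : ∀ k u : ℂ, ‖P‖ * ‖k - b‖ ≤ 8 * s → ‖A‖ * ‖u‖ ≤ 8 * s →
      ∀ i ≤ N, ‖zo d k u i - zo d b 0 i‖ ≤ 2 * E i := by
    intro k u hk hu
    refine region hd (κB := κB) (lam := 24 * s) (ρ := 8 * s / ‖P‖) (Θ := Θ) (E := E) hback hyne
      (by positivity) (by positivity) (fun i _ => hEd i) (hEsum.trans hν1) ?_ hΘle ?_ ?_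
    · calc 4 * d * ∑ i ∈ Finset.range N, E i / ‖zo d b 0 i‖ ≤ 4 * d * (C₆ * R ^ (4 * α)) := by gcongr
        _ = Θ := by rw [hΘ]; ring
    · rw [le_div_iff₀ hP0]
      linarith
    · rw [← hP, ← hAd]
      have h5 : 2 * Θ * ((∑ j ∈ Finset.range (N + 1), ‖Wp d b N j‖) * ‖k - b‖ + ‖A‖ * ‖u‖) ≤
          R ^ α * (8 * s + 8 * s) := by
        calc _ = (2 * Θ * ∑ j ∈ Finset.range (N + 1), ‖Wp d b N j‖) * ‖k - b‖ +
              2 * Θ * (‖A‖ * ‖u‖) := by ring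
          _ ≤ (R ^ α * ‖P‖) * ‖k - b‖ + R ^ α * (8 * s) := by gcongr
          _ = R ^ α * (‖P‖ * ‖k - b‖) + R ^ α * (8 * s) := by ring
          _ ≤ R ^ α * (8 * s) + R ^ α * (8 * s) := by gcongr
          _ = _ := by ring
      have h6 : R ^ α * (8 * s + 8 * s) ≤ 1 / 100 * (8 * s + 8 * s) := by gcongr
      linarith
  have hclose : ∀ k u : ℂ, ‖P‖ * ‖k - b‖ ≤ 8 * s → ‖A‖ * ‖u‖ ≤ 8 * s →
      ∀ i < N, ‖zo d k u i - zo d b 0 i‖ ≤ 2 * E i / ‖zo d b 0 i‖ * ‖zo d b 0 i‖ := by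
    intro k u hk hu i hi
    rw [div_mul_cancel₀ _ (hyp i hi).ne']
    exact hlin k u hk hu i hi.le
  refine ⟨P, A, norm_pos_iff.1 hP0, norm_pos_iff.1 hA0, ?_, ?_, ?_, ?_, ?_, ?_⟩
  · -- the size of `P`
    have h5 : R ^ (ε - 1) = R ^ (ε - 2 * e) * R ^ (2 * e - 1) := by
      rw [← Real.rpow_add hR]
      congr 1
      ring
    calc R ^ (ε - 1) = R ^ (ε - 2 * e) * R ^ (2 * e - 1) := h5
      _ ≤ κ / 8 * R ^ (2 * e - 1) := by gcongr
      _ = κ / 4 * (R ^ (2 * e - 1) / 2) := by ring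
      _ ≤ ‖Wp d b N n‖ * (R ^ (2 * e - 1) / 2) := by gcongr
      _ ≤ ‖P‖ := hPlow
  · -- the size of `A`
    have h5 : ‖A‖ = ‖deriv ((f d b)^[n]) b‖ * ‖Wp d b N n‖ := by
      rw [hAd, Wp_split (Nat.zero_le n) hnN, norm_mul, Wp_deriv d b n 0]
      rfl
    have h6 : R ^ (-((τ + α) * ((d : ℝ) - 1))) =
        R ^ (1 - 2 * e - (τ + α) * ((d : ℝ) - 1)) * R ^ (2 * e - 1) := by
      rw [← Real.rpow_add hR]
      congr 1
      ring
    rw [h5, h6]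
    calc 4 * (R ^ (1 - 2 * e - (τ + α) * ((d : ℝ) - 1)) * R ^ (2 * e - 1)) ≤
          4 * (κ / 16 * R ^ (2 * e - 1)) := by gcongr
      _ = R ^ (2 * e - 1) * (κ / 4) := by ring
      _ ≤ _ := by gcongr
  · rw [sum_deriv]
    exact hP
  · rw [hAd, Wp_deriv]
    rfl
  · rw [← hs]
    intro k u hk hu i hi
    refine (hclose k u hk hu i hi).trans ?_
    gcongr
    have h5 : E i / ‖zo d b 0 i‖ ≤ ∑ i ∈ Finset.range N, E i / ‖zo d b 0 i‖ :=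
      Finset.single_le_sum (f := fun i => E i / ‖zo d b 0 i‖)
        (fun j _ => div_nonneg (hE0 j) (norm_nonneg _)) (Finset.mem_range.2 hi)
    calc 2 * E i / ‖zo d b 0 i‖ = 2 * (E i / ‖zo d b 0 i‖) := by ring
      _ ≤ 2 * (C₆ * R ^ (4 * α)) := by
          have := h5.trans hEsum
          linarith
      _ ≤ R ^ α := by linarith
  · rw [← hs]
    intro k u k' u' hk hu hk' hu'
    have h5 := two_point hd (b := b) (N := N) (κ := k) (κ' := k') (u := u) (u' := u')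
      (ξ := fun i => 2 * E i / ‖zo d b 0 i‖) (fun i _ => by
        have := hE0 i
        positivity) (hclose k u hk hu) (hclose k' u' hk' hu') (Θ := Θ) (by
        calc 2 * d * ∑ i ∈ Finset.range N, 2 * E i / ‖zo d b 0 i‖ =
              4 * d * ∑ i ∈ Finset.range N, E i / ‖zo d b 0 i‖ := by
              rw [Finset.mul_sum, Finset.mul_sum]
              refine Finset.sum_congr rfl fun i _ => ?_
              ring
          _ ≤ 4 * d * (C₆ * R ^ (4 * α)) := by gcongr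
          _ = Θ := by rw [hΘ]; ring) hΘle
    rw [← hP, ← hAd] at h5
    refine h5.trans ?_
    calc 2 * Θ * ((∑ j ∈ Finset.range (N + 1), ‖Wp d b N j‖) * ‖k - k'‖ + ‖A‖ * ‖u - u'‖) =
          (2 * Θ * ∑ j ∈ Finset.range (N + 1), ‖Wp d b N j‖) * ‖k - k'‖ +
            2 * Θ * (‖A‖ * ‖u - u'‖) := by ring
      _ ≤ (R ^ α * ‖P‖) * ‖k - k'‖ + R ^ α * (‖A‖ * ‖u - u'‖) := by gcongr
      _ = _ := by ring

end Pool.Agent.N772.ST
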