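import Pool.Agent.N772.ST.Reg

/-!
# Estimates for the sums of the derivatives
-/

set_option autoImplicit false

open Set Filter Metric Topology

namespace Pool.Agent.N772.ST

open Pool.Agent.TH279.MD Pool.Agent.Y298.CA Pool.Agent.N253.LC Pool.Agent.N253.EC

/-- orbits which come back to the unit disc stay in the disc of radius four -/
theorem stay4 {d : ℕ} (hd : 2 ≤ d) {b : ℂ} (hb : ‖b‖ ≤ 3) {N : ℕ} (hN : ‖zo d b 0 N‖ ≤ 4) :
    ∀ i ≤ N, ‖zo d b 0 i‖ ≤ 4 := by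
  intro i hi
  by_contra hcon
  push Not at hcon
  have hall : ∀ m, 4 < ‖zo d b 0 (i + m)‖ := by
    intro m
    induction m with
    | zero => exact hcon
    | succ m ih =>
      rw [← add_assoc, zo_succ]
      have h5 : ‖zo d b 0 (i + m)‖ ^ 2 ≤ ‖zo d b 0 (i + m)‖ ^ d :=
        pow_le_pow_right₀ (by linarith) hd
      have h6 : ‖zo d b 0 (i + m)‖ ^ d ≤ ‖zo d b 0 (i + m) ^ d + b‖ + ‖b‖ := by
        have : (zo d b 0 (i + m)) ^ d = zo d b 0 (i + m) ^ d + b - b := by ring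
        rw [← norm_pow]
        nth_rewrite 1 [this]
        exact norm_sub_le _ _
      nlinarith
  have h5 := hall (N - i)
  have h6 : i + (N - i) = N := by omega
  rw [h6] at h5
  linarith

theorem exp_lin {η : ℝ} (hη : 0 < η) (m : ℕ) : (m : ℝ) ≤ 1 / η * Real.exp (η * m) := by
  have h1 := Real.add_one_le_exp (η * m)
  rw [div_mul_eq_mul_div, le_div_iff₀ hη]
  linarith

section

variable {d N n : ℕ} {b : ℂ} {κ κ1 η a g e s Nn C₂ R Q : ℝ}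

/-- the lower bound of the derivatives -/
theorem low (hκ : 0 < κ) (hκ1 : κ ≤ 1) (ha0 : 0 < a) (ha1 : a ≤ 1)
    (h4 : ∀ i ≤ N, ‖zo d b 0 i‖ ≤ 4) (hyp : ∀ i < N, 0 < ‖zo d b 0 i‖)
    (hB : ∀ i < N, κ * Real.exp (η * ((N - i : ℕ) : ℝ)) * ‖zo d b 0 i‖ ^ (-a) ≤ ‖Wp d b N i‖) {i : ℕ}
    (hi : i ≤ N) : κ / 4 * Real.exp (η * ((N - i : ℕ) : ℝ)) ≤ ‖Wp d b N i‖ := by
  rcases eq_or_lt_of_le hi with h | h
  · subst h
    rw [Wp_self, norm_one, Nat.sub_self]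
    simp
    linarith
  · refine le_trans ?_ (hB i h)
    have h0 := hyp i h
    have h1 : (4 : ℝ)⁻¹ ≤ ‖zo d b 0 i‖ ^ (-a) := by
      rw [Real.rpow_neg h0.le]
      apply inv_anti₀ (Real.rpow_pos_of_pos h0 _)
      calc ‖zo d b 0 i‖ ^ a ≤ 4 ^ a := Real.rpow_le_rpow h0.le (h4 i hi) ha0.le
        _ ≤ 4 ^ (1 : ℝ) := Real.rpow_le_rpow_of_exponent_le (by norm_num) ha1
        _ = 4 := Real.rpow_one 4
    calc κ / 4 * Real.exp (η * ((N - i : ℕ) : ℝ)) = κ * Real.exp (η * ((N - i : ℕ) : ℝ)) * (4 : ℝ)⁻¹ := by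
          ring
      _ ≤ κ * Real.exp (η * ((N - i : ℕ) : ℝ)) * ‖zo d b 0 i‖ ^ (-a) :=
          mul_le_mul_of_nonneg_left h1 (by positivity)

/-- the product splits -/
theorem Wp_split {j : ℕ} (hj : j ≤ n) (hn : n ≤ N) : Wp d b N j = Wp d b n j * Wp d b N n := by
  unfold Wp
  exact (Finset.prod_Ico_consecutive _ hj hn).symm

/-- the sum splits -/
theorem sum_split (hn : n ≤ N) : ∑ j ∈ Finset.range (N + 1), Wp d b N j =
    (∑ j ∈ Finset.range (n + 1), Wp d b n j) * Wp d b N n +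
      ∑ j ∈ Finset.Ico (n + 1) (N + 1), Wp d b N j := by
  rw [Finset.sum_mul, ← Finset.sum_range_add_sum_Ico _ (show n + 1 ≤ N + 1 by omega)]
  congr 1
  refine Finset.sum_congr rfl fun j hj => ?_
  rw [Finset.mem_range] at hj
  exact Wp_split (by omega) hn

/-- **The derivative with respect to the parameter.** -/
theorem P_low (hn : n ≤ N) (hne : Wp d b N n ≠ 0) (hR : 0 < R)
    (hsum : ∑ l ∈ Finset.Ico (n + 1) (N + 1), ‖Wp d b N l‖ / ‖Wp d b N n‖ ≤ R ^ (g - 1) / (κ * Q))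
    (hP : R ^ (2 * e - 1) ≤ ‖∑ j ∈ Finset.range (n + 1), Wp d b n j‖)
    (hκQ : 0 < κ * Q) (hs : R ^ (g - 2 * e) ≤ κ * Q / 2) :
    ‖Wp d b N n‖ * (R ^ (2 * e - 1) / 2) ≤ ‖∑ j ∈ Finset.range (N + 1), Wp d b N j‖ := by
  have hD : 0 < ‖Wp d b N n‖ := norm_pos_iff.2 hne
  rw [sum_split hn]
  have h1 : ‖∑ j ∈ Finset.Ico (n + 1) (N + 1), Wp d b N j‖ ≤ ‖Wp d b N n‖ * (R ^ (2 * e - 1) / 2) := by
    refine (norm_sum_le _ _).trans ?_
    rw [← Finset.sum_div, div_le_iff₀ hD] at hsum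
    refine hsum.trans ?_
    rw [mul_comm]
    refine mul_le_mul_of_nonneg_left ?_ hD.le
    rw [div_le_iff₀ hκQ]
    have e1 : R ^ (g - 1) = R ^ (g - 2 * e) * R ^ (2 * e - 1) := by
      rw [← Real.rpow_add hR]
      congr 1
      ring
    have h2 : 0 < R ^ (2 * e - 1) := Real.rpow_pos_of_pos hR _
    calc R ^ (g - 1) = R ^ (g - 2 * e) * R ^ (2 * e - 1) := e1
      _ ≤ κ * Q / 2 * R ^ (2 * e - 1) := by gcongr
      _ = R ^ (2 * e - 1) / 2 * (κ * Q) := by ring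
  have h2 : ‖Wp d b N n‖ * R ^ (2 * e - 1) ≤
      ‖(∑ j ∈ Finset.range (n + 1), Wp d b n j) * Wp d b N n‖ := by
    rw [norm_mul, mul_comm]
    gcongr
  have h3 := norm_sub_le_norm_add ((∑ j ∈ Finset.range (n + 1), Wp d b n j) * Wp d b N n)
    (∑ j ∈ Finset.Ico (n + 1) (N + 1), Wp d b N j)
  linarith

/-- **The sum of the absolute values.** -/
theorem D_up (hn : n ≤ N) (hne : Wp d b N n ≠ 0) (hR : 0 < R) (hR1 : R ≤ 1)
    (hsum : ∑ l ∈ Finset.Ico (n + 1) (N + 1), ‖Wp d b N l‖ / ‖Wp d b N n‖ ≤ R ^ (g - 1) / (κ * Q))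
    (hκQ : 0 < κ * Q) (hg : 0 ≤ g) (hκ1 : 0 < κ1)
    (hder : ∀ j ≤ n, κ1 ≤ ‖deriv ((f d b)^[j]) b‖) (hup : ‖deriv ((f d b)^[n]) b‖ ≤ 3 / R)
    (he : 0 ≤ e) (hC₂ : (n : ℝ) + 1 ≤ C₂ * R ^ (-e)) :
    ∑ j ∈ Finset.range (N + 1), ‖Wp d b N j‖ ≤
      ‖Wp d b N n‖ * (R⁻¹ * ((3 * C₂ / κ1 + 1 / (κ * Q)) * R ^ (-e))) := by
  have hD : 0 < ‖Wp d b N n‖ := norm_pos_iff.2 hne
  have hRe : 1 ≤ R ^ (-e) := by
    rw [Real.rpow_neg hR.le]
    exact (one_le_inv₀ (Real.rpow_pos_of_pos hR _)).2 (Real.rpow_le_one hR.le hR1 he)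
  rw [← Finset.sum_range_add_sum_Ico _ (show n + 1 ≤ N + 1 by omega)]
  have h1 : ∑ j ∈ Finset.range (n + 1), ‖Wp d b N j‖ ≤
      ‖Wp d b N n‖ * (R⁻¹ * (3 / κ1 * ((n : ℝ) + 1))) := by
    have h2 : ∀ j ∈ Finset.range (n + 1), ‖Wp d b N j‖ ≤ ‖Wp d b N n‖ * (R⁻¹ * (3 / κ1)) := by
      intro j hj
      rw [Finset.mem_range] at hj
      rw [Wp_split (show j ≤ n by omega) hn, norm_mul, mul_comm]
      gcongr
      have h3 : Wp d b n 0 = Wp d b j 0 * Wp d b n j := Wp_split (Nat.zero_le j) (by omega)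
      have h4 := hder j (by omega)
      have h5 : Wp d b j 0 = deriv ((f d b)^[j]) b := by
        rw [Wp_deriv]
        rfl
      have h6 : Wp d b n 0 = deriv ((f d b)^[n]) b := by
        rw [Wp_deriv]
        rfl
      rw [← h5] at h4
      rw [← h6, h3, norm_mul] at hup
      have h7 : κ1 * ‖Wp d b n j‖ ≤ 3 / R := by
        refine le_trans ?_ hup
        gcongr
      have h8 : ‖Wp d b n j‖ ≤ 3 / R / κ1 := by
        rw [le_div_iff₀ hκ1]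
        linarith
      refine h8.trans (le_of_eq ?_)
      field_simp
    refine (Finset.sum_le_sum h2).trans (le_of_eq ?_)
    rw [Finset.sum_const, Finset.card_range, nsmul_eq_mul]
    push_cast
    ring
  have h3 : ∑ j ∈ Finset.Ico (n + 1) (N + 1), ‖Wp d b N j‖ ≤
      ‖Wp d b N n‖ * (R⁻¹ * (1 / (κ * Q))) := by
    rw [← Finset.sum_div, div_le_iff₀ hD] at hsum
    refine hsum.trans ?_
    rw [mul_comm]
    gcongr
    have e1 : R ^ (g - 1) = R ^ g * R⁻¹ := by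
      rw [Real.rpow_sub hR, Real.rpow_one]
      rfl
    have h4 : R ^ g ≤ 1 := Real.rpow_le_one hR.le hR1 hg
    have h5 : 0 < R⁻¹ := inv_pos.2 hR
    rw [e1, div_eq_mul_one_div]
    have h6 : 0 ≤ 1 / (κ * Q) := by positivity
    nlinarith [mul_nonneg h5.le h6]
  have h6 : ∑ j ∈ Finset.range (n + 1), ‖Wp d b N j‖ + ∑ j ∈ Finset.Ico (n + 1) (N + 1), ‖Wp d b N j‖ ≤
      ‖Wp d b N n‖ * (R⁻¹ * (3 / κ1 * ((n : ℝ) + 1) + 1 / (κ * Q))) := by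
    calc _ ≤ ‖Wp d b N n‖ * (R⁻¹ * (3 / κ1 * ((n : ℝ) + 1))) +
          ‖Wp d b N n‖ * (R⁻¹ * (1 / (κ * Q))) := add_le_add h1 h3
      _ = _ := by ring
  refine h6.trans ?_
  have h7 : 0 < R⁻¹ := inv_pos.2 hR
  gcongr
  calc 3 / κ1 * ((n : ℝ) + 1) + 1 / (κ * Q) ≤ 3 / κ1 * (C₂ * R ^ (-e)) + 1 / (κ * Q) * R ^ (-e) := by
        gcongr
        exact le_mul_of_one_le_right (by positivity) hRe
    _ = _ := by ring

end

end Pool.Agent.N772.ST
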