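import Pool.Agent.N772.ST.Eng
import Pool.Agent.N772.PC.Sha

/-!
# The family in the zone
-/

set_option autoImplicit false

open Set Filter Metric Topology

namespace Pool.Agent.N772.ST

open Pool.Agent.TH279.MD Pool.Agent.Y298.CA Pool.Agent.N253.LC Pool.Agent.N253.EC

variable {d N : ℕ} {b P A : ℂ} {s θ : ℝ}

theorem zo_diff_u (d : ℕ) (κ : ℂ) (N : ℕ) (u : ℂ) :
    HasDerivAt (fun u => zo d κ u N) (deriv ((f d κ)^[N]) (κ + u)) u := by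
  have h1 : HasDerivAt ((f d κ)^[N]) (deriv ((f d κ)^[N]) (κ + u)) (κ + u) :=
    (ENTaux.diff_it d κ N _).hasDerivAt
  have h2 := h1.comp u ((hasDerivAt_id' u).const_add κ)
  rw [mul_one] at h2
  exact h2

theorem zo_diff_k (d : ℕ) (N : ℕ) (κ : ℂ) :
    HasDerivAt (fun κ => zo d κ 0 N) (deriv (fun t : ℂ => (f d t)^[N] t) κ) κ := by
  have h1 : (fun κ => zo d κ 0 N) = fun t : ℂ => (f d t)^[N] t := by
    funext κ
    unfold zo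
    rw [add_zero]
  rw [h1]
  exact (ENTaux.diff_xi d N κ).hasDerivAt

/-- the derivative with respect to the point -/
theorem Zone.der_u (hZ : Zone d b N P A s θ) (hθ : 0 ≤ θ) {κ u : ℂ}
    (hκ : ‖P‖ * ‖κ - b‖ ≤ 8 * s) (hu : ‖A‖ * ‖u‖ < 8 * s) :
    ‖deriv ((f d κ)^[N]) (κ + u) - A‖ ≤ θ * ‖A‖ := by
  have h1 : HasDerivAt (fun u => zo d κ u N - A * u) (deriv ((f d κ)^[N]) (κ + u) - A) u := by
    have h2 := (zo_diff_u d κ N u).fun_sub ((hasDerivAt_id' u).const_mul A)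
    rwa [mul_one] at h2
  refine h1.le_of_lip' (by positivity) ?_
  have h3 : ∀ᶠ u' in 𝓝 u, ‖A‖ * ‖u'‖ < 8 * s :=
    (continuous_const.mul continuous_norm).continuousAt.eventually_lt continuousAt_const hu
  filter_upwards [h3] with u' hu'
  have h4 := hZ.two κ u' κ u hκ hu'.le hκ hu.le
  rw [sub_self, mul_zero, sub_zero, norm_zero, mul_zero, zero_add] at h4
  have e : zo d κ u' N - A * u' - (zo d κ u N - A * u) = zo d κ u' N - zo d κ u N - A * (u' - u) := by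
    ring
  rw [e]
  linarith

/-- the derivative with respect to the parameter -/
theorem Zone.der_k (hZ : Zone d b N P A s θ) (hθ : 0 ≤ θ) (hs : 0 < s) {κ : ℂ}
    (hκ : ‖P‖ * ‖κ - b‖ < 8 * s) :
    ‖deriv (fun t : ℂ => (f d t)^[N] t) κ - P‖ ≤ θ * ‖P‖ := by
  have h1 : HasDerivAt (fun κ => zo d κ 0 N - P * κ) (deriv (fun t : ℂ => (f d t)^[N] t) κ - P) κ := by
    have h2 := (zo_diff_k d N κ).fun_sub ((hasDerivAt_id' κ).const_mul P)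
    rwa [mul_one] at h2
  refine h1.le_of_lip' (by positivity) ?_
  have hc : Continuous fun κ' : ℂ => ‖P‖ * ‖κ' - b‖ := by fun_prop
  have h3 : ∀ᶠ κ' in 𝓝 κ, ‖P‖ * ‖κ' - b‖ < 8 * s :=
    hc.continuousAt.eventually_lt continuousAt_const hκ
  have h0 : ‖A‖ * ‖(0 : ℂ)‖ ≤ 8 * s := by rw [norm_zero, mul_zero]; linarith
  filter_upwards [h3] with κ' hκ'
  have h4 := hZ.two κ' 0 κ 0 hκ'.le h0 hκ.le h0
  rw [sub_self, mul_zero, sub_zero, norm_zero, mul_zero, add_zero] at h4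
  have e : zo d κ' 0 N - P * κ' - (zo d κ 0 N - P * κ) = zo d κ' 0 N - zo d κ 0 N - P * (κ' - κ) := by
    ring
  rw [e]
  linarith

/-- **The centre.** -/
theorem Zone.centre (hZ : Zone d b N P A s θ) (hθ : 0 ≤ θ) (hθ1 : θ ≤ 1 / 100) (hs : 0 < s)
    (hP : P ≠ 0) (hnear : ‖zo d b 0 N‖ < s) :
    ∃ c : ℂ, zo d c 0 N = 0 ∧ ‖P‖ * ‖c - b‖ ≤ 100 / 99 * s := by
  have hP0 : 0 < ‖P‖ := norm_pos_iff.2 hP
  obtain ⟨r, hr⟩ : ∃ r, r = 3 * s / ‖P‖ := ⟨_, rfl⟩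
  have hr0 : 0 < r := by rw [hr]; positivity
  have hPr : ‖P‖ * r = 3 * s := by rw [hr]; field_simp
  have h0 : ‖A‖ * ‖(0 : ℂ)‖ ≤ 8 * s := by rw [norm_zero, mul_zero]; linarith
  have hb : ‖P‖ * ‖b - b‖ ≤ 8 * s := by rw [sub_self, norm_zero, mul_zero]; linarith
  have hdist : ∀ κ : ℂ, ‖κ - b‖ ≤ r → ‖zo d κ 0 N - zo d b 0 N - P * (κ - b)‖ ≤
      θ * (‖P‖ * ‖κ - b‖) := by
    intro κ hκ
    have h1 : ‖P‖ * ‖κ - b‖ ≤ 8 * s := by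
      calc ‖P‖ * ‖κ - b‖ ≤ ‖P‖ * r := by gcongr
        _ ≤ 8 * s := by linarith
    have h4 := hZ.two κ 0 b 0 h1 h0 hb h0
    rwa [sub_self, mul_zero, sub_zero, norm_zero, mul_zero, add_zero] at h4
  have hzero : ∃ c ∈ closedBall b r, zo d c 0 N = 0 := by
    by_contra hcon
    push Not at hcon
    have hdiff : DiffContOnCl ℂ (fun κ => (zo d κ 0 N)⁻¹) (ball b r) := by
      have h1 : ∀ κ ∈ closedBall b r, DifferentiableAt ℂ (fun κ => (zo d κ 0 N)⁻¹) κ := fun κ hκ =>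
        (zo_diff_k d N κ).differentiableAt.inv (hcon κ hκ)
      refine ⟨fun κ hκ => (h1 κ (ball_subset_closedBall hκ)).differentiableWithinAt, ?_⟩
      rw [closure_ball _ hr0.ne']
      exact fun κ hκ => (h1 κ hκ).continuousAt.continuousWithinAt
    have h2 : ‖(zo d b 0 N)⁻¹‖ ≤ s⁻¹ := by
      refine Complex.norm_le_of_forall_mem_frontier_norm_le (f := fun κ => (zo d κ 0 N)⁻¹)
        isBounded_ball hdiff (fun κ hκ => ?_) (subset_closure (mem_ball_self hr0))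
      rw [frontier_ball _ hr0.ne', mem_sphere, dist_eq_norm] at hκ
      have h3 := hdist κ hκ.le
      rw [hκ, hPr] at h3
      have h4 : ‖P * (κ - b)‖ = 3 * s := by rw [norm_mul, hκ, hPr]
      have h5 : ‖P * (κ - b)‖ ≤ ‖zo d κ 0 N - zo d b 0 N - P * (κ - b)‖ + ‖zo d κ 0 N‖ + ‖zo d b 0 N‖ := by
        have e : P * (κ - b) = -(zo d κ 0 N - zo d b 0 N - P * (κ - b)) + zo d κ 0 N - zo d b 0 N := by
          ring
        calc ‖P * (κ - b)‖ = ‖-(zo d κ 0 N - zo d b 0 N - P * (κ - b)) + zo d κ 0 N - zo d b 0 N‖ := by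
              rw [← e]
          _ ≤ ‖-(zo d κ 0 N - zo d b 0 N - P * (κ - b)) + zo d κ 0 N‖ + ‖zo d b 0 N‖ := norm_sub_le _ _
          _ ≤ ‖-(zo d κ 0 N - zo d b 0 N - P * (κ - b))‖ + ‖zo d κ 0 N‖ + ‖zo d b 0 N‖ := by
              gcongr
              exact norm_add_le _ _
          _ = _ := by rw [norm_neg]
      have h6 : θ * (3 * s) ≤ 1 / 100 * (3 * s) := by gcongr
      rw [norm_inv]
      exact inv_anti₀ hs (by linarith)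
    have h7 : zo d b 0 N ≠ 0 := hcon b (mem_closedBall_self hr0.le)
    rw [norm_inv, inv_le_inv₀ (norm_pos_iff.2 h7) hs] at h2
    linarith
  obtain ⟨c, hc, hc0⟩ := hzero
  refine ⟨c, hc0, ?_⟩
  rw [mem_closedBall, dist_eq_norm] at hc
  have h3 := hdist c hc
  rw [hc0, zero_sub] at h3
  have h4 : ‖P‖ * ‖c - b‖ ≤ ‖-zo d b 0 N - P * (c - b)‖ + ‖zo d b 0 N‖ := by
    rw [← norm_mul]
    have e : P * (c - b) = -(-zo d b 0 N - P * (c - b)) - zo d b 0 N := by ring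
    calc ‖P * (c - b)‖ = ‖-(-zo d b 0 N - P * (c - b)) - zo d b 0 N‖ := by rw [← e]
      _ ≤ ‖-(-zo d b 0 N - P * (c - b))‖ + ‖zo d b 0 N‖ := norm_sub_le _ _
      _ = _ := by rw [norm_neg]
  have h5 : θ * (‖P‖ * ‖c - b‖) ≤ 1 / 100 * (‖P‖ * ‖c - b‖) := by gcongr
  linarith

/-- **The renormalised family.** -/
theorem Zone.family (hd : 2 ≤ d) (hZ : Zone d b N P A s θ) (hθ : 0 ≤ θ) (hθ1 : θ ≤ 1 / 100)
    (hs : 0 < s) (hP : P ≠ 0) (hA : A ≠ 0) (hfar : ∀ i < N, s ≤ ‖zo d b 0 i‖) {c : ℂ}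
    (hc : zo d c 0 N = 0) (hcb : ‖P‖ * ‖c - b‖ ≤ 100 / 99 * s) {m l : ℂ}
    (hm : m ^ (d - 1) * deriv ((f d c)^[N]) c = 1)
    (hl : l * deriv (fun t : ℂ => (f d t)^[N] t) c = m) :
    m ≠ 0 ∧ l ≠ 0 ∧ 99 / 100 * ‖A‖ * ‖m‖ ^ (d - 1) ≤ 1 ∧ 99 / 100 * ‖P‖ * ‖l‖ ≤ ‖m‖ ∧
      ‖b - c‖ ≤ ‖l‖ * (3 * s / ‖m‖ / 2) ∧
      ∀ x z : ℂ, ‖x‖ * ‖m‖ ≤ 3 * s → ‖z‖ ^ d * ‖m‖ ≤ 3 * s →
        ‖(f d (c + l * x))^[N + 1] (m * z) / m - (z ^ d + x)‖ ≤ 3 * θ * (‖x‖ + ‖z‖ ^ d) ∧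
        ‖deriv ((f d (c + l * x))^[N + 1]) (m * z) - d * z ^ (d - 1)‖ ≤ 3 * θ * (d * ‖z‖ ^ (d - 1)) ∧
        ∀ j, 0 < j → j < N + 1 → s / 2 ≤ ‖(f d (c + l * x))^[j] (m * z)‖ := by
  have hP0 : 0 < ‖P‖ := norm_pos_iff.2 hP
  have hA0 : 0 < ‖A‖ := norm_pos_iff.2 hA
  obtain ⟨Ac, hAc⟩ : ∃ Ac, Ac = deriv ((f d c)^[N]) c := ⟨_, rfl⟩
  obtain ⟨Pc, hPc⟩ : ∃ Pc, Pc = deriv (fun t : ℂ => (f d t)^[N] t) c := ⟨_, rfl⟩
  rw [← hAc] at hm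
  rw [← hPc] at hl
  have hA1 : ‖Ac - A‖ ≤ θ * ‖A‖ := by
    have h1 := hZ.der_u hθ (κ := c) (u := 0) (by linarith) (by rw [norm_zero, mul_zero]; linarith)
    rwa [add_zero, ← hAc] at h1
  have hP1 : ‖Pc - P‖ ≤ θ * ‖P‖ := by
    rw [hPc]
    exact hZ.der_k hθ hs (by linarith)
  have hA2 : 99 / 100 * ‖A‖ ≤ ‖Ac‖ := by
    have h1 := norm_le_norm_add_norm_sub Ac A
    have h2 : θ * ‖A‖ ≤ 1 / 100 * ‖A‖ := by gcongr
    linarith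
  have hP2 : 99 / 100 * ‖P‖ ≤ ‖Pc‖ := by
    have h1 := norm_le_norm_add_norm_sub Pc P
    have h2 : θ * ‖P‖ ≤ 1 / 100 * ‖P‖ := by gcongr
    linarith
  have hP3 : ‖Pc‖ ≤ 101 / 100 * ‖P‖ := by
    have h1 := norm_le_norm_add_norm_sub' Pc P
    have h2 : θ * ‖P‖ ≤ 1 / 100 * ‖P‖ := by gcongr
    linarith
  have hm0 : m ≠ 0 := by
    rintro rfl
    rw [zero_pow (by omega), zero_mul] at hm
    exact zero_ne_one hm
  have hl0 : l ≠ 0 := by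
    rintro rfl
    rw [zero_mul] at hl
    exact hm0 hl.symm
  have hmn : 0 < ‖m‖ := norm_pos_iff.2 hm0
  have hln : 0 < ‖l‖ := norm_pos_iff.2 hl0
  have hmA : ‖m‖ ^ (d - 1) * ‖Ac‖ = 1 := by rw [← norm_pow, ← norm_mul, hm, norm_one]
  have hlP : ‖l‖ * ‖Pc‖ = ‖m‖ := by rw [← norm_mul, hl]
  have hmd : ‖m‖ ^ d = ‖m‖ ^ (d - 1) * ‖m‖ := by
    rw [← pow_succ]
    congr 1
    omega
  refine ⟨hm0, hl0, ?_, ?_, ?_, ?_⟩
  · calc 99 / 100 * ‖A‖ * ‖m‖ ^ (d - 1) ≤ ‖Ac‖ * ‖m‖ ^ (d - 1) := by gcongr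
      _ = 1 := by rw [mul_comm]; exact hmA
  · calc 99 / 100 * ‖P‖ * ‖l‖ ≤ ‖Pc‖ * ‖l‖ := by gcongr
      _ = ‖m‖ := by rw [mul_comm]; exact hlP
  · have h1 : ‖b - c‖ = ‖c - b‖ := norm_sub_rev _ _
    have h2 : ‖l‖ * (3 * s / ‖m‖ / 2) = 3 * s / 2 / ‖Pc‖ := by
      have h3 : 0 < ‖Pc‖ := by
        have : 0 < 99 / 100 * ‖P‖ := by positivity
        linarith
      rw [← hlP]
      field_simp
    have h3 : 0 < ‖Pc‖ := by
      have : 0 < 99 / 100 * ‖P‖ := by positivity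
      linarith
    rw [h1, h2, le_div_iff₀ h3]
    calc ‖c - b‖ * ‖Pc‖ ≤ ‖c - b‖ * (101 / 100 * ‖P‖) := by gcongr
      _ = 101 / 100 * (‖P‖ * ‖c - b‖) := by ring
      _ ≤ 101 / 100 * (100 / 99 * s) := by gcongr
      _ ≤ 3 * s / 2 := by linarith
  intro x z hx hz
  obtain ⟨κ, hκ⟩ : ∃ κ, κ = c + l * x := ⟨_, rfl⟩
  obtain ⟨u, hu⟩ : ∃ u, u = (m * z) ^ d := ⟨_, rfl⟩
  rw [← hκ]
  have hPl : ‖P‖ * ‖l‖ ≤ 100 / 99 * ‖m‖ := by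
    have : 99 / 100 * ‖P‖ * ‖l‖ ≤ ‖m‖ := by
      calc 99 / 100 * ‖P‖ * ‖l‖ ≤ ‖Pc‖ * ‖l‖ := by gcongr
        _ = ‖m‖ := by rw [mul_comm]; exact hlP
    linarith
  have hAm : ‖A‖ * ‖m‖ ^ d ≤ 100 / 99 * ‖m‖ := by
    have h1 : 99 / 100 * ‖A‖ * ‖m‖ ^ (d - 1) ≤ 1 := by
      calc 99 / 100 * ‖A‖ * ‖m‖ ^ (d - 1) ≤ ‖Ac‖ * ‖m‖ ^ (d - 1) := by gcongr
        _ = 1 := by rw [mul_comm]; exact hmA
    rw [hmd]
    have h2 : (99 / 100 * ‖A‖ * ‖m‖ ^ (d - 1)) * ‖m‖ ≤ 1 * ‖m‖ := by gcongr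
    linarith
  have hκc : ‖P‖ * ‖κ - c‖ ≤ 100 / 99 * (‖x‖ * ‖m‖) := by
    rw [hκ, add_sub_cancel_left, norm_mul]
    calc ‖P‖ * (‖l‖ * ‖x‖) = (‖P‖ * ‖l‖) * ‖x‖ := by ring
      _ ≤ (100 / 99 * ‖m‖) * ‖x‖ := by gcongr
      _ = _ := by ring
  have hκb : ‖P‖ * ‖κ - b‖ < 8 * s := by
    have h1 : ‖κ - b‖ ≤ ‖κ - c‖ + ‖c - b‖ := norm_sub_le_norm_sub_add_norm_sub _ _ _
    have h2 : ‖P‖ * ‖κ - b‖ ≤ ‖P‖ * ‖κ - c‖ + ‖P‖ * ‖c - b‖ := by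
      rw [← mul_add]
      gcongr
    linarith
  have hun : ‖A‖ * ‖u‖ ≤ 100 / 99 * (‖z‖ ^ d * ‖m‖) := by
    rw [hu, norm_pow, norm_mul, mul_pow]
    calc ‖A‖ * (‖m‖ ^ d * ‖z‖ ^ d) = (‖A‖ * ‖m‖ ^ d) * ‖z‖ ^ d := by ring
      _ ≤ (100 / 99 * ‖m‖) * ‖z‖ ^ d := by gcongr
      _ = _ := by ring
  have hu8 : ‖A‖ * ‖u‖ < 8 * s := by linarith
  have hcb8 : ‖P‖ * ‖c - b‖ ≤ 8 * s := by linarith
  have h08 : ‖A‖ * ‖(0 : ℂ)‖ ≤ 8 * s := by rw [norm_zero, mul_zero]; linarith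
  have hshift : ∀ j, (f d κ)^[j + 1] (m * z) = zo d κ u j := by
    intro j
    rw [Function.iterate_succ_apply]
    unfold zo
    congr 1
    rw [hu]
    show (m * z) ^ d + κ = _
    ring
  refine ⟨?_, ?_, ?_⟩
  · have h1 := hZ.two κ u c 0 hκb.le hu8.le hcb8 h08
    rw [hc, sub_zero, sub_zero] at h1
    have e1 : κ - c = l * x := by rw [hκ]; ring
    rw [e1] at h1
    have e2 : Ac * u = m * z ^ d := by
      rw [hu, mul_pow]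
      have : m ^ d = m ^ (d - 1) * m := by
        rw [← pow_succ]
        congr 1
        omega
      rw [this]
      calc Ac * (m ^ (d - 1) * m * z ^ d) = (m ^ (d - 1) * Ac) * (m * z ^ d) := by ring
        _ = _ := by rw [hm, one_mul]
    have e3 : Pc * (l * x) = m * x := by rw [← hl]; ring
    have h2 : ‖zo d κ u N - m * (z ^ d + x)‖ ≤ ‖m‖ * (3 * θ * (‖x‖ + ‖z‖ ^ d)) := by
      have e4 : zo d κ u N - m * (z ^ d + x) = (zo d κ u N - P * (l * x) - A * u) -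
          ((Pc - P) * (l * x) + (Ac - A) * u) := by
        rw [sub_mul, sub_mul, e3, e2]
        ring
      rw [e4]
      have e5 : ‖l * x‖ = ‖κ - c‖ := by rw [e1]
      calc ‖(zo d κ u N - P * (l * x) - A * u) - ((Pc - P) * (l * x) + (Ac - A) * u)‖ ≤
            ‖zo d κ u N - P * (l * x) - A * u‖ + ‖(Pc - P) * (l * x) + (Ac - A) * u‖ :=
            norm_sub_le _ _
        _ ≤ θ * (‖P‖ * ‖l * x‖ + ‖A‖ * ‖u‖) + (θ * ‖P‖ * ‖l * x‖ + θ * ‖A‖ * ‖u‖) := by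
            refine add_le_add h1 ((norm_add_le _ _).trans ?_)
            rw [norm_mul, norm_mul (Ac - A)]
            gcongr
        _ = 2 * θ * (‖P‖ * ‖κ - c‖ + ‖A‖ * ‖u‖) := by rw [e5]; ring
        _ ≤ 2 * θ * (100 / 99 * (‖x‖ * ‖m‖) + 100 / 99 * (‖z‖ ^ d * ‖m‖)) := by gcongr
        _ = ‖m‖ * (2 * (100 / 99) * θ * (‖x‖ + ‖z‖ ^ d)) := by ring
        _ ≤ _ := by
            gcongr
            norm_num
    rw [hshift]
    have e6 : zo d κ u N / m - (z ^ d + x) = (zo d κ u N - m * (z ^ d + x)) / m := by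
      field_simp
    rw [e6, norm_div, div_le_iff₀ hmn]
    linarith
  · have h1 := hZ.der_u hθ hκb.le hu8
    have h2 : deriv ((f d κ)^[N + 1]) (m * z) = deriv ((f d κ)^[N]) (κ + u) * (d * (m * z) ^ (d - 1)) := by
      rw [ENTaux.chain, Function.iterate_one, ENTaux.deriv_f]
      congr 2
      rw [hu]
      show (m * z) ^ d + κ = _
      ring
    rw [h2]
    have e7 : deriv ((f d κ)^[N]) (κ + u) * (d * (m * z) ^ (d - 1)) - d * z ^ (d - 1) =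
        ((deriv ((f d κ)^[N]) (κ + u) - A) - (Ac - A)) * (d * (m ^ (d - 1) * z ^ (d - 1))) := by
      rw [mul_pow]
      have : (d : ℂ) * z ^ (d - 1) = Ac * (d * (m ^ (d - 1) * z ^ (d - 1))) := by
        calc (d : ℂ) * z ^ (d - 1) = (m ^ (d - 1) * Ac) * (d * z ^ (d - 1)) := by rw [hm, one_mul]
          _ = _ := by ring
      linear_combination -this
    rw [e7, norm_mul]
    have h3 : ‖(deriv ((f d κ)^[N]) (κ + u) - A) - (Ac - A)‖ ≤ 2 * θ * ‖A‖ := by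
      refine (norm_sub_le _ _).trans ?_
      linarith
    have h4 : ‖(d : ℂ) * (m ^ (d - 1) * z ^ (d - 1))‖ = ‖m‖ ^ (d - 1) * (d * ‖z‖ ^ (d - 1)) := by
      rw [norm_mul, norm_mul, norm_pow, norm_pow, Complex.norm_natCast]
      ring
    rw [h4]
    have h5 : 99 / 100 * ‖A‖ * ‖m‖ ^ (d - 1) ≤ 1 := by
      calc 99 / 100 * ‖A‖ * ‖m‖ ^ (d - 1) ≤ ‖Ac‖ * ‖m‖ ^ (d - 1) := by gcongr
        _ = 1 := by rw [mul_comm]; exact hmA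
    calc ‖(deriv ((f d κ)^[N]) (κ + u) - A) - (Ac - A)‖ * (‖m‖ ^ (d - 1) * (d * ‖z‖ ^ (d - 1))) ≤
          (2 * θ * ‖A‖) * (‖m‖ ^ (d - 1) * (d * ‖z‖ ^ (d - 1))) := by gcongr
      _ = 2 * (100 / 99) * θ * (99 / 100 * ‖A‖ * ‖m‖ ^ (d - 1)) * (d * ‖z‖ ^ (d - 1)) := by ring
      _ ≤ 3 * θ * 1 * (d * ‖z‖ ^ (d - 1)) := by
          gcongr
          norm_num
      _ = _ := by ring
  · intro j hj0 hj
    obtain ⟨i, rfl⟩ : ∃ i, j = i + 1 := ⟨j - 1, by omega⟩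
    rw [hshift]
    have h1 := hZ.close κ u hκb.le hu8.le i (by omega)
    have h2 := hfar i (by omega)
    have h3 := norm_le_norm_add_norm_sub (zo d κ u i) (zo d b 0 i)
    have h4 : θ * ‖zo d b 0 i‖ ≤ 1 / 100 * ‖zo d b 0 i‖ := by gcongr
    linarith

end Pool.Agent.N772.ST
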