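import Pool.Agent.N772.ST.Fam
import Pool.Agent.N253.LS.Cov

/-!
# Parameters near a Lyapunov parameter: they are in the zones of perfect copies, or their critical
orbits are not recurrent
-/

set_option autoImplicit false

open Set Filter Metric Topology

namespace Pool.Agent.N772.ST

open Pool.Agent.TH279.MD Pool.Agent.Y298.CA Pool.Agent.N253.LC Pool.Agent.N253.EC
open Pool.Agent.N253.LS (choice comp exn Semihyp ent)

/-- the zone of a copy -/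
structure Copy (d : ℕ) (k : ℕ) (c l m : ℂ) (S δ : ℝ) : Prop where
  k1 : 1 ≤ k
  l0 : l ≠ 0
  m0 : m ≠ 0
  zero : (f d c)^[k] 0 = 0
  ne : ∀ j, 0 < j → j < k → (f d c)^[j] 0 ≠ 0
  sm : m ^ (d - 1) * deriv ((f d c)^[k - 1]) c = 1
  sl : l * deriv (fun t : ℂ => (f d t)^[k] 0) c = m
  fam : ∀ y z : ℂ, ‖y‖ ≤ S → ‖z‖ ^ d ≤ S →
    ‖(f d (c + l * y))^[k] (m * z) / m - (z ^ d + y)‖ ≤ δ * (‖y‖ + ‖z‖ ^ d) ∧
    ‖deriv ((f d (c + l * y))^[k]) (m * z) - d * z ^ (d - 1)‖ ≤ δ * (d * ‖z‖ ^ (d - 1)) ∧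
    ∀ j, 0 < j → j < k → S * ‖m‖ / 6 ≤ ‖(f d (c + l * y))^[j] (m * z)‖

theorem main {d : ℕ} (hd : 2 ≤ d) {χ : ℝ} {c₀ : ℂ} (hL : Lyap d χ c₀) {ε : ℝ} (hε : 0 < ε) :
    ∃ α : ℝ, 0 < α ∧ ∃ R₀ : ℝ, 0 < R₀ ∧ R₀ ≤ 1 / 4 ∧ ∀ R : ℝ, 0 < R → R ≤ R₀ →
    ∀ b : ℂ, ‖b - c₀‖ < R →
    (∃ (k : ℕ) (c l m x : ℂ) (S : ℝ), Copy d k c l m S (3 * R ^ α) ∧ 3 * R ^ (-α) ≤ S ∧
      ‖c - c₀‖ ≤ 2 * R ∧ b = c + l * x ∧ ‖x‖ ≤ S / 2 ∧
      ‖l‖ * S ≤ R ^ ((d : ℝ) / (d - 1) - ε)) ∨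
    ((∀ j : ℕ, 1 ≤ j → R ^ (1 / ((d : ℝ) - 1)) ≤ ‖(f d b)^[j] 0‖) ∧
      (b ∈ N62a1eb23.multibrotSet d → Semihyp d b ∧ b ∉ interior (N62a1eb23.multibrotSet d))) := by
  have hdR : (2 : ℝ) ≤ d := by exact_mod_cast hd
  have hd1 : (0 : ℝ) < (d : ℝ) - 1 := by linarith
  obtain ⟨τ, ε', hτ1, hτ2, hε', hετ, hlt⟩ := choice hd hε
  have hτ0 : 0 < τ := lt_of_lt_of_le (by positivity) hτ1
  obtain ⟨α, R₁, hα, hατ, hR₁, hR14, H1⟩ := engine hd hL hτ1 hτ2 hε'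
  obtain ⟨R₃, hR₃, H3⟩ := comp ent d χ c₀ hd hL τ ε' hτ1 hτ2 hε'
  obtain ⟨R₄, hR₄, H4⟩ := Pool.Agent.N253.EC.t_SEMI t_PASS (exn t_PASS) d χ c₀ hd hL τ hτ0 hτ2
  obtain ⟨q, hq, hq1, Q⟩ := Pool.Agent.N253.SM.small_pow 4 (τ - ε') (by linarith)
  obtain ⟨q', hq', hq1', Q'⟩ := Pool.Agent.N253.SM.small_pow 4
    (1 + τ - ε' - ((d : ℝ) / (d - 1) - ε)) (by linarith)
  refine ⟨α, hα, min (min R₁ R₃) (min R₄ (min q q')), by positivity,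
    ((min_le_left _ _).trans (min_le_left _ _)).trans hR14, ?_⟩
  intro R hR hRR b hbR
  have h1 : R ≤ R₁ := hRR.trans ((min_le_left _ _).trans (min_le_left _ _))
  have h3 : R ≤ R₃ := hRR.trans ((min_le_left _ _).trans (min_le_right _ _))
  have h4 : R ≤ R₄ := hRR.trans ((min_le_right _ _).trans (min_le_left _ _))
  have h5 : R ≤ q := hRR.trans ((min_le_right _ _).trans ((min_le_right _ _).trans (min_le_left _ _)))
  have h6 : R ≤ q' := hRR.trans ((min_le_right _ _).trans ((min_le_right _ _).trans (min_le_right _ _)))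
  have hs : 0 < R ^ τ := Real.rpow_pos_of_pos hR _
  have hzo : ∀ j : ℕ, zo d b 0 j = (f d b)^[j + 1] 0 := by
    intro j
    rw [Pool.Agent.N253.EC.COMPaux.shift hd]
    show (f d b)^[j] (b + 0) = _
    rw [add_zero]
  by_cases hent : ∃ j : ℕ, ‖zo d b 0 j‖ < R ^ τ
  swap
  · right
    push Not at hent
    have hall : ∀ j : ℕ, 1 ≤ j → R ^ τ ≤ ‖(f d b)^[j] 0‖ := by
      intro k hk
      obtain ⟨j, rfl⟩ : ∃ j, k = j + 1 := ⟨k - 1, by omega⟩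
      rw [← hzo]
      exact hent j
    refine ⟨fun j hj => le_trans ?_ (hall j hj), fun hb => ⟨⟨H4 R hR h4 b hb hbR.le hall, R ^ τ, hs,
      hall⟩, fun hi => ?_⟩⟩
    · refine Real.rpow_le_rpow_of_exponent_ge hR (by linarith) ?_
      rw [le_div_iff₀ hd1]
      exact hτ2.le
    · obtain ⟨k, hk, h⟩ := (H3 R hR h3).2 b hi hbR
      exact absurd (hall k hk) (not_le.2 h)
  left
  classical
  obtain ⟨N, hN⟩ : ∃ N, N = Nat.find hent := ⟨_, rfl⟩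
  have hNs : ‖zo d b 0 N‖ < R ^ τ := by rw [hN]; exact Nat.find_spec hent
  have hfar : ∀ i < N, R ^ τ ≤ ‖zo d b 0 i‖ := fun i hi => by
    rw [hN] at hi
    exact not_lt.1 (Nat.find_min hent hi)
  obtain ⟨hθ, H1'⟩ := H1 R hR h1
  obtain ⟨P, A, hP, hA, hPl, hAl, hPe, hAe, hZ⟩ := H1' b hbR.le N hfar hNs
  have hθ0 : 0 < R ^ α := Real.rpow_pos_of_pos hR _
  have hP0 : 0 < ‖P‖ := norm_pos_iff.2 hP
  have hA0 : 0 < ‖A‖ := norm_pos_iff.2 hA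
  obtain ⟨c, hc0, hcb⟩ := hZ.centre hθ0.le hθ hs hP hNs
  have hPR : R ^ τ / ‖P‖ ≤ R ^ (1 + τ - ε') := by
    rw [div_le_iff₀ hP0]
    calc R ^ τ = R ^ (1 + τ - ε') * R ^ (ε' - 1) := by rw [← Real.rpow_add hR]; congr 1; ring
      _ ≤ _ := by gcongr
  have hcbR : ‖c - b‖ ≤ R := by
    have h7 : ‖c - b‖ ≤ 100 / 99 * (R ^ τ / ‖P‖) := by
      rw [← mul_div_assoc, le_div_iff₀ hP0]
      linarith
    have h8 : R ^ (1 + τ - ε') = R * R ^ (τ - ε') := by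
      rw [show 1 + τ - ε' = 1 + (τ - ε') by ring, Real.rpow_add hR, Real.rpow_one]
    have h9 := Q R hR h5
    rw [h8] at hPR
    nlinarith
  have hAc : deriv ((f d c)^[N]) c ≠ 0 := by
    intro h
    have h10 := hZ.der_u hθ0.le (κ := c) (u := 0) (by linarith) (by rw [norm_zero, mul_zero]; linarith)
    rw [add_zero, h, zero_sub, norm_neg] at h10
    nlinarith
  have hPc : deriv (fun t : ℂ => (f d t)^[N] t) c ≠ 0 := by
    intro h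
    have h10 := hZ.der_k hθ0.le hs (κ := c) (by linarith)
    rw [h, zero_sub, norm_neg] at h10
    nlinarith
  obtain ⟨m, hm⟩ : ∃ m : ℂ, m ^ (d - 1) = (deriv ((f d c)^[N]) c)⁻¹ :=
    IsAlgClosed.exists_pow_nat_eq _ (by omega)
  have hm' : m ^ (d - 1) * deriv ((f d c)^[N]) c = 1 := by rw [hm, inv_mul_cancel₀ hAc]
  obtain ⟨l, hl⟩ : ∃ l : ℂ, l = m / deriv (fun t : ℂ => (f d t)^[N] t) c := ⟨_, rfl⟩
  have hl' : l * deriv (fun t : ℂ => (f d t)^[N] t) c = m := by rw [hl, div_mul_cancel₀ _ hPc]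
  obtain ⟨hm0, hl0, hmA, hlP, hbc, hfam⟩ := hZ.family hd hθ0.le hθ hs hP hA hfar hc0 hcb hm' hl'
  have hmn : 0 < ‖m‖ := norm_pos_iff.2 hm0
  have hln : 0 < ‖l‖ := norm_pos_iff.2 hl0
  obtain ⟨S, hS⟩ : ∃ S, S = 3 * R ^ τ / ‖m‖ := ⟨_, rfl⟩
  have hSm : S * ‖m‖ = 3 * R ^ τ := by rw [hS]; field_simp
  have hfun : (fun t : ℂ => (f d t)^[N + 1] 0) = fun t : ℂ => (f d t)^[N] t :=
    funext fun t => Pool.Agent.N253.EC.COMPaux.shift hd t N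
  refine ⟨N + 1, c, l, m, (b - c) / l, S, ⟨by omega, hl0, hm0, ?_, ?_, hm', ?_, ?_⟩, ?_, ?_, ?_, ?_, ?_⟩
  · rw [Pool.Agent.N253.EC.COMPaux.shift hd]
    have : zo d c 0 N = (f d c)^[N] c := by
      show (f d c)^[N] (c + 0) = _
      rw [add_zero]
    rw [← this, hc0]
  · intro j hj0 hj h
    have := (hfam 0 0 (by rw [norm_zero, zero_mul]; linarith)
      (by rw [norm_zero, zero_pow (by omega), zero_mul]; linarith)).2.2 j hj0 hj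
    rw [mul_zero, mul_zero, add_zero, h, norm_zero] at this
    linarith
  · rw [hfun]
    exact hl'
  · intro y z hy hz
    obtain ⟨g1, g2, g3⟩ := hfam y z (by rw [← hSm]; gcongr) (by rw [← hSm]; gcongr)
    refine ⟨g1, g2, fun j hj0 hj => ?_⟩
    have := g3 j hj0 hj
    rw [hSm]
    linarith
  · -- the size of `S`
    have h11 : ‖m‖ ^ (d - 1) ≤ (R ^ (τ + α)) ^ (d - 1) := by
      have h12 : (R ^ (τ + α)) ^ (d - 1) * R ^ (-((τ + α) * ((d : ℝ) - 1))) = 1 := by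
        rw [← Real.rpow_natCast, ← Real.rpow_mul hR.le, ← Real.rpow_add hR,
          Nat.cast_sub (by omega), Nat.cast_one]
        rw [show (τ + α) * ((d : ℝ) - 1) + -((τ + α) * ((d : ℝ) - 1)) = 0 by ring, Real.rpow_zero]
      have h13 : 0 < R ^ (-((τ + α) * ((d : ℝ) - 1))) := Real.rpow_pos_of_pos hR _
      have h14 : R ^ (-((τ + α) * ((d : ℝ) - 1))) * ‖m‖ ^ (d - 1) ≤ 1 := by
        have h15 : 99 / 100 * (4 * R ^ (-((τ + α) * ((d : ℝ) - 1)))) * ‖m‖ ^ (d - 1) ≤ 1 := by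
          calc 99 / 100 * (4 * R ^ (-((τ + α) * ((d : ℝ) - 1)))) * ‖m‖ ^ (d - 1) ≤
                99 / 100 * ‖A‖ * ‖m‖ ^ (d - 1) := by gcongr
            _ ≤ 1 := hmA
        have h16 : 0 ≤ R ^ (-((τ + α) * ((d : ℝ) - 1))) * ‖m‖ ^ (d - 1) := by positivity
        nlinarith
      have h17 : R ^ (-((τ + α) * ((d : ℝ) - 1))) * ‖m‖ ^ (d - 1) ≤
          R ^ (-((τ + α) * ((d : ℝ) - 1))) * (R ^ (τ + α)) ^ (d - 1) := by
        rw [mul_comm _ ((R ^ (τ + α)) ^ (d - 1)), h12]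
        exact h14
      exact le_of_mul_le_mul_left h17 h13
    have h18 : ‖m‖ ≤ R ^ (τ + α) :=
      le_of_pow_le_pow_left₀ (by omega) (Real.rpow_pos_of_pos hR _).le h11
    rw [hS, le_div_iff₀ hmn]
    calc 3 * R ^ (-α) * ‖m‖ ≤ 3 * R ^ (-α) * R ^ (τ + α) := by gcongr
      _ = 3 * R ^ τ := by rw [mul_assoc, ← Real.rpow_add hR]; congr 2; ring
  · have := norm_add_le (c - b) (b - c₀)
    rw [sub_add_sub_cancel] at this
    linarith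
  · field_simp
    ring
  · rw [norm_div, div_le_iff₀ hln, hS]
    calc ‖b - c‖ ≤ ‖l‖ * (3 * R ^ τ / ‖m‖ / 2) := hbc
      _ = _ := by ring
  · have h19 : ‖l‖ * S ≤ 4 * (R ^ τ / ‖P‖) := by
      rw [hS]
      have h20 : ‖l‖ * ‖P‖ ≤ 100 / 99 * ‖m‖ := by linarith
      rw [← mul_div_assoc, ← mul_div_assoc, div_le_div_iff₀ hmn hP0]
      nlinarith
    have h21 : R ^ (1 + τ - ε') = R ^ ((d : ℝ) / (d - 1) - ε) *
        R ^ (1 + τ - ε' - ((d : ℝ) / (d - 1) - ε)) := by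
      rw [← Real.rpow_add hR]; congr 1; ring
    have h22 := Q' R hR h6
    have h23 : 0 < R ^ ((d : ℝ) / (d - 1) - ε) := Real.rpow_pos_of_pos hR _
    calc ‖l‖ * S ≤ 4 * R ^ (1 + τ - ε') := h19.trans (by gcongr)
      _ = R ^ ((d : ℝ) / (d - 1) - ε) * (4 * R ^ (1 + τ - ε' - ((d : ℝ) / (d - 1) - ε))) := by
          rw [h21]; ring
      _ ≤ R ^ ((d : ℝ) / (d - 1) - ε) * 1 := by gcongr
      _ = _ := mul_one _

end Pool.Agent.N772.ST
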