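import Pool.Agent.N772.ST.Alg

/-!
# The region in which the orbits stay relatively close
-/

set_option autoImplicit false

open Set Filter Metric Topology

namespace Pool.Agent.N772.ST

open Pool.Agent.TH279.MD Pool.Agent.Y298.CA Pool.Agent.N253.LC Pool.Agent.N253.EC

/-- the conclusion of `S_BACK` for fixed `d` -/
def Back (d : ℕ) (κ : ℝ) : Prop := ∀ (n : ℕ) (a b s₀ lam ρ : ℝ) (z : ℕ → ℝ → ℂ)
  (γ : ℝ → ℂ) (D E : ℕ → ℝ), s₀ ∈ Icc a b → 0 ≤ lam → 0 ≤ ρ →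
  (∀ i ≤ n, ContinuousOn (z i) (Icc a b)) →
  (∀ i < n, ∀ s ∈ Icc a b, z (i + 1) s = z i s ^ d + γ s) →
  (∀ s ∈ Icc a b, ‖γ s - γ s₀‖ ≤ ρ) → (∀ s ∈ Icc a b, ‖z n s - z n s₀‖ ≤ lam) →
  (∀ i < n, z i s₀ ≠ 0) → (∀ i < n, D i = D (i + 1) * (d * ‖z i s₀‖ ^ (d - 1))) → D n = 1 →
  (∀ i ≤ n, E i = lam / D i + ρ * ∑ l ∈ Finset.Ico (i + 1) (n + 1), D l / D i) →
  ∑ i ∈ Finset.range n, E i / ‖z i s₀‖ ≤ κ →
  ∀ i ≤ n, ∀ s ∈ Icc a b, ‖z i s - z i s₀‖ ≤ 2 * E i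

theorem Wp_succ (d : ℕ) (b : ℂ) {N i : ℕ} (hi : i < N) :
    Wp d b N i = Wp d b N (i + 1) * ((d : ℂ) * zo d b 0 i ^ (d - 1)) := by
  unfold Wp
  rw [Finset.prod_eq_prod_Ico_succ_bot hi, mul_comm]

theorem Wp_self (d : ℕ) (b : ℂ) (N : ℕ) : Wp d b N N = 1 := by
  unfold Wp
  rw [Finset.Ico_self, Finset.prod_empty]

theorem Wp_ne (d : ℕ) (hd : 2 ≤ d) {b : ℂ} {N : ℕ} (hy : ∀ i < N, zo d b 0 i ≠ 0) (i : ℕ) :
    Wp d b N i ≠ 0 := by
  unfold Wp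
  refine Finset.prod_ne_zero_iff.2 fun l hl => ?_
  rw [Finset.mem_Ico] at hl
  have h1 : (d : ℂ) ≠ 0 := by exact_mod_cast (by omega : d ≠ 0)
  exact mul_ne_zero h1 (pow_ne_zero _ (hy l hl.2))

theorem zo_cont (d : ℕ) (b k u : ℂ) (i : ℕ) :
    Continuous fun t : ℝ => zo d (b + t * (k - b)) (t * u) i := by
  induction i with
  | zero =>
    simp only [zo_zero]
    fun_prop
  | succ i ih =>
    simp only [zo_succ]
    exact (ih.pow d).add (by fun_prop)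

theorem region {d N : ℕ} (hd : 2 ≤ d) {b : ℂ} {κB lam ρ Θ : ℝ} {E : ℕ → ℝ} (hback : Back d κB)
    (hy : ∀ i < N, zo d b 0 i ≠ 0) (hlam : 0 < lam) (hρ : 0 ≤ ρ)
    (hE : ∀ i ≤ N, E i = lam / ‖Wp d b N i‖ +
      ρ * ∑ l ∈ Finset.Ico (i + 1) (N + 1), ‖Wp d b N l‖ / ‖Wp d b N i‖)
    (hsum : ∑ i ∈ Finset.range N, E i / ‖zo d b 0 i‖ ≤ κB)
    (hsum2 : 4 * d * ∑ i ∈ Finset.range N, E i / ‖zo d b 0 i‖ ≤ Θ) (hΘ : Θ ≤ 1) {k u : ℂ}
    (hk : ‖k - b‖ ≤ ρ)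
    (hlin : ‖∑ j ∈ Finset.range (N + 1), Wp d b N j‖ * ‖k - b‖ + ‖Wp d b N 0‖ * ‖u‖ +
      2 * Θ * ((∑ j ∈ Finset.range (N + 1), ‖Wp d b N j‖) * ‖k - b‖ + ‖Wp d b N 0‖ * ‖u‖) < lam) :
    ∀ i ≤ N, ‖zo d k u i - zo d b 0 i‖ ≤ 2 * E i := by
  have hE0 : ∀ i ≤ N, 0 ≤ E i := by
    intro i hi
    rw [hE i hi]
    positivity
  have hΘ0 : 0 ≤ Θ := by
    refine le_trans ?_ hsum2
    have : 0 ≤ ∑ i ∈ Finset.range N, E i / ‖zo d b 0 i‖ :=
      Finset.sum_nonneg fun i hi => div_nonneg (hE0 i (Finset.mem_range.1 hi).le) (norm_nonneg _)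
    positivity
  obtain ⟨z, hz⟩ : ∃ z : ℕ → ℝ → ℂ, z = fun i (t : ℝ) => zo d (b + (t : ℂ) * (k - b)) ((t : ℂ) * u) i :=
    ⟨_, rfl⟩
  obtain ⟨γ, hγ⟩ : ∃ γ : ℝ → ℂ, γ = fun t : ℝ => b + (t : ℂ) * (k - b) := ⟨_, rfl⟩
  have hz0 : ∀ i, z i 0 = zo d b 0 i := by
    intro i
    rw [hz]
    simp
  have hz1 : ∀ i, z i 1 = zo d k u i := by
    intro i
    rw [hz]
    simp
  have hzc : ∀ i, Continuous (z i) := by
    intro i
    rw [hz]
    exact zo_cont d b k u i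
  -- application of `Back`
  have happ : ∀ T : ℝ, 0 ≤ T → T ≤ 1 → (∀ t ∈ Icc 0 T, ‖z N t - z N 0‖ ≤ lam) →
      ∀ i ≤ N, ∀ t ∈ Icc 0 T, ‖z i t - z i 0‖ ≤ 2 * E i := by
    intro T hT0 hT1 hbd
    refine hback N 0 T 0 lam ρ z γ (fun i => ‖Wp d b N i‖) E ⟨le_rfl, hT0⟩ hlam.le hρ
      (fun i _ => (hzc i).continuousOn) ?_ ?_ hbd ?_ ?_ ?_ hE ?_
    · intro i _ t _
      rw [hz, hγ]
      exact zo_succ _ _ _ _
    · intro t ht
      rw [hγ]
      simp only [Complex.ofReal_zero, zero_mul, add_zero, add_sub_cancel_left]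
      rw [norm_mul, Complex.norm_real, Real.norm_eq_abs, abs_of_nonneg ht.1]
      have h1 : t ≤ 1 := ht.2.trans hT1
      have h2 := norm_nonneg (k - b)
      nlinarith
    · intro i hi
      rw [hz0]
      exact hy i hi
    · intro i hi
      rw [Wp_succ d b hi, norm_mul, norm_mul, norm_pow, Complex.norm_natCast, hz0]
    · rw [Wp_self, norm_one]
    · simp only [hz0]
      exact hsum
  -- the end point
  have hend : ∀ T : ℝ, 0 ≤ T → T ≤ 1 → (∀ t ∈ Icc 0 T, ‖z N t - z N 0‖ ≤ lam) →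
      ‖z N T - z N 0‖ < lam := by
    intro T hT0 hT1 hbd
    have h1 := happ T hT0 hT1 hbd
    have h2 := two_point hd (b := b) (κ := b + T * (k - b)) (u := T * u) (κ' := b) (u' := 0) (N := N)
      (ξ := fun i => 2 * E i / ‖zo d b 0 i‖) (fun i hi => by
        have := hE0 i hi.le
        positivity) (fun i hi => by
        have h3 := h1 i hi.le T ⟨hT0, le_rfl⟩
        rw [hz0, hz] at h3
        have h4 : 0 < ‖zo d b 0 i‖ := norm_pos_iff.2 (hy i hi)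
        rw [div_mul_cancel₀ _ h4.ne']
        exact h3) (fun i hi => by
        rw [sub_self, norm_zero]
        have := hE0 i hi.le
        positivity) (Θ := Θ) (by
        refine le_trans (le_of_eq ?_) hsum2
        rw [Finset.mul_sum, Finset.mul_sum]
        refine Finset.sum_congr rfl fun i _ => ?_
        ring) hΘ
    rw [add_sub_cancel_left, sub_zero] at h2
    have h3 : zo d (b + T * (k - b)) (T * u) N = z N T := by rw [hz]
    rw [h3, ← hz0] at h2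
    have hTT : ‖(T : ℂ)‖ = T := by rw [Complex.norm_real, Real.norm_eq_abs, abs_of_nonneg hT0]
    have h4 : ‖z N T - z N 0‖ ≤ ‖z N T - z N 0 - (∑ j ∈ Finset.range (N + 1), Wp d b N j) *
        (T * (k - b)) - Wp d b N 0 * (T * u)‖ + (‖∑ j ∈ Finset.range (N + 1), Wp d b N j‖ *
        ‖k - b‖ + ‖Wp d b N 0‖ * ‖u‖) := by
      have e : z N T - z N 0 = (z N T - z N 0 - (∑ j ∈ Finset.range (N + 1), Wp d b N j) *
        (T * (k - b)) - Wp d b N 0 * (T * u)) + ((∑ j ∈ Finset.range (N + 1), Wp d b N j) *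
        (T * (k - b)) + Wp d b N 0 * (T * u)) := by ring
      have h5 := norm_add_le (z N T - z N 0 - (∑ j ∈ Finset.range (N + 1), Wp d b N j) *
        (T * (k - b)) - Wp d b N 0 * (T * u)) ((∑ j ∈ Finset.range (N + 1), Wp d b N j) *
        (T * (k - b)) + Wp d b N 0 * (T * u))
      rw [← e] at h5
      refine h5.trans (add_le_add le_rfl ((norm_add_le _ _).trans ?_))
      rw [norm_mul, norm_mul, norm_mul, norm_mul, hTT]
      gcongr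
      · nlinarith [norm_nonneg (k - b)]
      · nlinarith [norm_nonneg u]
    have h6 : 2 * Θ * ((∑ j ∈ Finset.range (N + 1), ‖Wp d b N j‖) * ‖(T : ℂ) * (k - b)‖ +
        ‖Wp d b N 0‖ * ‖(T : ℂ) * u‖) ≤
        2 * Θ * ((∑ j ∈ Finset.range (N + 1), ‖Wp d b N j‖) * ‖k - b‖ + ‖Wp d b N 0‖ * ‖u‖) := by
      rw [norm_mul, norm_mul, hTT]
      gcongr
      · nlinarith [norm_nonneg (k - b)]
      · nlinarith [norm_nonneg u]
    linarith
  have hall : ∀ t ∈ Icc (0 : ℝ) 1, ‖z N t - z N 0‖ ≤ lam := by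
    intro t ht
    by_contra hcon
    push Not at hcon
    obtain ⟨t₂, ht₂, h1, h2⟩ := ENTaux.first_point (fun t => ‖z N t - z N 0‖) 0 t lam ht.1
      (((hzc N).sub continuous_const).norm.continuousOn) (by simpa using hlam.le) hcon.le
    have h3 := hend t₂ ht₂.1 (ht₂.2.trans ht.2) h2
    exact absurd h1 h3.ne
  intro i hi
  have h1 := happ 1 zero_le_one le_rfl hall i hi 1 ⟨zero_le_one, le_rfl⟩
  rwa [hz0, hz1] at h1

end Pool.Agent.N772.ST
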