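import Pool.Agent.N772.ST.Main
import Pool.Agent.N772.PC.Near

/-!
# From the zones to the closeness of the renormalised family, in the notation of `PC`
-/

set_option autoImplicit false

open Set Filter Metric Topology

namespace Pool.Agent.N772.ST

open Pool.Agent.N772.PC (Un)

theorem Copy.un {d k : ℕ} (hd : 2 ≤ d) {c l m : ℂ} {S δ T : ℝ} (h : Copy d k c l m S δ)
    (hδ : 0 ≤ δ) (hS : Real.exp T ≤ S) (hT : 2 * d * δ ≤ Real.exp (-T)) : Un d k c l m T := by
  have hdR : (2 : ℝ) ≤ d := by exact_mod_cast hd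
  intro R hR1 hR κ z hκ hz
  obtain ⟨h1, h2, -⟩ := h.fam κ z ((hκ.trans hR).trans hS) ((hz.trans hR).trans hS)
  have h3 : R ≤ R ^ 2 := by nlinarith
  have h4 : 0 < Real.exp (-T) := Real.exp_pos _
  have h5 : ‖z‖ ^ (d - 1) ≤ R := by
    rcases le_total ‖z‖ 1 with h6 | h6
    · exact (pow_le_one₀ (norm_nonneg _) h6).trans hR1
    · exact (pow_le_pow_right₀ h6 (by omega)).trans hz
  constructor
  · refine h1.trans ?_
    calc δ * (‖κ‖ + ‖z‖ ^ d) ≤ δ * (R + R) := by gcongr
      _ = R * (2 * 1 * δ) := by ring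
      _ ≤ R * (2 * d * δ) := by gcongr; linarith
      _ ≤ R ^ 2 * Real.exp (-T) := by gcongr
  · refine h2.trans ?_
    calc δ * (d * ‖z‖ ^ (d - 1)) ≤ δ * (d * R) := by gcongr
      _ = R * (1 * d * δ) := by ring
      _ ≤ R * (2 * d * δ) := by gcongr; norm_num
      _ ≤ R ^ 2 * Real.exp (-T) := by gcongr

end Pool.Agent.N772.ST
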